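import Pool.Agent.H93.BSD.Pts

/-!
# The uniform bounds for periodic chains
-/

namespace Pool.Agent.H93.BSD

theorem per_max {k : ℕ} (hk : 0 < k) {f : ℤ → ℝ} (hf : ∀ n, f (n + k) = f n) :
    ∃ N, ∀ n, f n ≤ f N := by
  have hne : (Finset.Ico (0 : ℤ) k).Nonempty := ⟨0, by simp [hk]⟩
  obtain ⟨N, _, hN⟩ := Finset.exists_max_image (Finset.Ico (0 : ℤ) k) f hne
  refine ⟨N, fun n => ?_⟩
  have hk' : (0 : ℤ) < k := by exact_mod_cast hk
  have hper : Function.Periodic f (k : ℤ) := hf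
  have h1 : f n = f (n % k) := by
    have := hper.sub_zsmul_eq (n / k) (x := n)
    rw [← this]
    congr 1
    rw [smul_eq_mul]
    have := Int.emod_add_mul_ediv n k
    linarith [mul_comm (n / k) (k : ℤ)]
  rw [h1]
  apply hN
  rw [Finset.mem_Ico]
  exact ⟨Int.emod_nonneg _ hk'.ne', Int.emod_lt_of_pos _ hk'⟩

theorem per_min {k : ℕ} (hk : 0 < k) {f : ℤ → ℝ} (hf : ∀ n, f (n + k) = f n) :
    ∃ N, ∀ n, f N ≤ f n := by
  obtain ⟨N, hN⟩ := per_max hk (f := fun n => - f n) (fun n => by simp only [hf n])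
  exact ⟨N, fun n => by linarith [hN n]⟩

variable {d : ℤ → ℤ} {A B s : ℤ → ℝ} {a b : ℝ} {k : ℕ}

theorem B_one (h : Chain d A B) (n : ℤ) : 1 ≤ B n := by
  have h1 := h.disc n
  have h2 := h.posA n
  have h3 := h.posA (n - 1)
  have h4 := h.posB n
  have h5 : 0 < A n * A (n - 1) := mul_pos h2 h3
  nlinarith

theorem A_up (h : Chain d A B) (hk : 0 < k) (hA : ∀ n, A (n + k) = A n)
    (hd : ∀ n, a ≤ d n) (ha : 24 ≤ a) (n : ℤ) : A n ≤ 251 / 250 * (1 / a) := by
  obtain ⟨N, hN⟩ := per_max hk hA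
  refine (hN n).trans ?_
  have h1 := h.rel N
  have h2 := h.disc N
  have h3 := h.disc (N + 1)
  have e : N + 1 - 1 = N := by ring
  rw [e] at h3
  have pA := h.posA N
  have pB := h.posB N
  have pB' := h.posB (N + 1)
  have g1 : B N ^ 2 ≤ 1 + 4 * A N ^ 2 := by
    have := mul_le_mul_of_nonneg_left (hN (N - 1)) pA.le
    nlinarith
  have g2 : B (N + 1) ^ 2 ≤ 1 + 4 * A N ^ 2 := by
    have := mul_le_mul_of_nonneg_right (hN (N + 1)) pA.le
    nlinarith
  have g3 : 2 * a * A N ≤ B N + B (N + 1) := by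
    rw [h1]
    have := mul_le_mul_of_nonneg_right (hd N) pA.le
    linarith
  have g4 : (2 * a * A N) ^ 2 ≤ (B N + B (N + 1)) ^ 2 :=
    pow_le_pow_left₀ (by positivity) g3 2
  have g5 : (B N + B (N + 1)) ^ 2 ≤ 2 * B N ^ 2 + 2 * B (N + 1) ^ 2 := by
    nlinarith [sq_nonneg (B N - B (N + 1))]
  have g6 : (a ^ 2 - 4) * A N ^ 2 ≤ 1 := by nlinarith
  have pa : 0 < a := by linarith
  rw [mul_one_div, le_div_iff₀ pa]
  have g7 : (A N * a) ^ 2 ≤ (251 / 250) ^ 2 := by
    have h8 : (504 : ℝ) ≤ a ^ 2 := by nlinarith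
    have h9 : 0 ≤ A N ^ 2 := sq_nonneg _
    nlinarith
  exact (abs_le_of_sq_le_sq' g7 (by norm_num)).2

theorem A_lo (h : Chain d A B) (hk : 0 < k) (hA : ∀ n, A (n + k) = A n)
    (hd : ∀ n, d n ≤ b) (hb : 24 ≤ b) (n : ℤ) : 1 / b ≤ A n := by
  obtain ⟨N, hN⟩ := per_min hk hA
  refine le_trans ?_ (hN n)
  have h1 := h.rel N
  have pA := h.posA N
  have pb : 0 < b := by linarith
  have g3 : B N + B (N + 1) ≤ 2 * b * A N := by
    rw [h1]
    have := mul_le_mul_of_nonneg_right (hd N) pA.le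
    linarith
  have g4 := B_one h N
  have g5 := B_one h (N + 1)
  rw [div_le_iff₀ pb]
  linarith

theorem bds_of (h : Chain d A B) (hk : 0 < k) (hA : ∀ n, A (n + k) = A n)
    (hs : ∀ n, s (n + k) = s n) (hseq : ∀ n, d n * s n + s (n + 1) + s (n - 1) = 1)
    (hda : ∀ n, a ≤ d n) (hdb : ∀ n, d n ≤ b) (ha : 24 ≤ a) (hab : 4 * b ≤ 5 * a) :
    Bds d A B s (1 / a) := by
  have pa : 0 < a := by linarith
  have hb : 24 ≤ b := by linarith [hda 0, hdb 0]
  have pb : 0 < b := by linarith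
  set x := 1 / a with hx
  have px : 0 < x := by positivity
  have hxa : a * x = 1 := by rw [hx]; field_simp
  have hx1 : x ≤ 1 / 24 := by
    rw [hx]; exact one_div_le_one_div_of_le (by norm_num) ha
  have hbx : 4 / 5 * x ≤ 1 / b := by
    rw [le_div_iff₀ pb]
    nlinarith
  have hAlo : ∀ n, 4 / 5 * x ≤ A n := fun n => hbx.trans (A_lo h hk hA hdb hb n)
  have hAhi : ∀ n, A n ≤ 251 / 250 * x := fun n => A_up h hk hA hda ha n
  have hbx2 : b * x ≤ 5 / 4 := by nlinarith
  -- the sequence s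
  obtain ⟨N, hN⟩ := per_max hk (f := fun n => |s n|) (fun n => by simp only [hs n])
  have hS : |s N| * (a - 2) ≤ 1 := by
    have e1 : (d N : ℝ) * s N = 1 - s (N + 1) - s (N - 1) := by linarith [hseq N]
    have e2 : (d N : ℝ) * |s N| ≤ 1 + |s N| + |s N| := by
      have : (d N : ℝ) * |s N| = |(d N : ℝ) * s N| := by
        rw [abs_mul, abs_of_nonneg (by linarith [hda N] : (0 : ℝ) ≤ d N)]
      rw [this, e1]
      calc |1 - s (N + 1) - s (N - 1)| ≤ |1 - s (N + 1)| + |s (N - 1)| := abs_sub _ _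
        _ ≤ |(1 : ℝ)| + |s (N + 1)| + |s (N - 1)| := by
            have := abs_sub (1 : ℝ) (s (N + 1))
            linarith
        _ ≤ _ := by
            rw [abs_one]
            linarith [hN (N + 1), hN (N - 1)]
    have := mul_le_mul_of_nonneg_right (hda N) (abs_nonneg (s N))
    linarith
  have hS2 : ∀ n, |s n| ≤ 1 / 22 := by
    intro n
    refine (hN n).trans ?_
    have h0 := abs_nonneg (s N)
    nlinarith
  have hpos : ∀ n, 0 < s n := by
    intro n
    have h1 := (abs_le.1 (hS2 (n + 1))).2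
    have h2 := (abs_le.1 (hS2 (n - 1))).2
    have h3 := hseq n
    have h4 : 0 < d n * s n := by linarith
    have h5 : (0 : ℝ) < d n := by linarith [hda n]
    exact (mul_pos_iff_of_pos_left h5).1 h4
  have hup : ∀ n, s n ≤ x := by
    intro n
    have h1 := hpos (n + 1)
    have h2 := hpos (n - 1)
    have h3 := hseq n
    have h4 := mul_le_mul_of_nonneg_right (hda n) (hpos n).le
    rw [hx, le_div_iff₀ pa]
    linarith
  have hlo : ∀ n, 4 / 5 * x * (1 - 2 * x) ≤ s n := by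
    intro n
    have h1 := hup (n + 1)
    have h2 := hup (n - 1)
    have h3 := hseq n
    have h4 := mul_le_mul_of_nonneg_right (hdb n) (hpos n).le
    have h5 : 1 - 2 * x ≤ b * s n := by linarith
    have h6 : (1 - 2 * x) * (1 / b) ≤ s n := by
      rw [mul_one_div, div_le_iff₀ pb]
      linarith
    have h7 : 0 ≤ 1 - 2 * x := by linarith
    nlinarith
  have hhi : ∀ n, s n ≤ x * (1 - 8 / 5 * x * (1 - 2 * x)) := by
    intro n
    have h1 := hlo (n + 1)
    have h2 := hlo (n - 1)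
    have h3 := hseq n
    have h4 := mul_le_mul_of_nonneg_right (hda n) (hpos n).le
    have h5 : a * s n ≤ 1 - 8 / 5 * x * (1 - 2 * x) := by linarith
    have h6 := mul_le_mul_of_nonneg_left h5 px.le
    have h7 : x * (a * s n) = s n := by
      rw [← mul_assoc, mul_comm x a, hxa, one_mul]
    linarith
  refine ⟨px, hx1, fun n => ?_, fun n => ?_, hAlo, hAhi, B_one h, fun n => ?_, hseq, hlo, hhi⟩
  · have := mul_le_mul_of_nonneg_right (hda n) px.le
    linarith
  · have := mul_le_mul_of_nonneg_right (hdb n) px.le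
    linarith
  · have h1 := h.disc n
    have h2 : A n * A (n - 1) ≤ (251 / 250 * x) * (251 / 250 * x) :=
      mul_le_mul (hAhi n) (hAhi _) (h.posA _).le (by positivity)
    have h3 : B n ^ 2 ≤ (1 + 21 / 10 * x ^ 2) ^ 2 := by
      nlinarith [sq_nonneg (x ^ 2)]
    exact (abs_le_of_sq_le_sq' h3 (by positivity)).2

end Pool.Agent.H93.BSD
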