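import Mathlib

/-!
# Inequalities in one cell
-/

namespace Pool.Agent.H93.BSD

/-- removal of the absolute value -/
theorem cell_pos {x a a' b u v : ℝ} (hx : 0 < x) (hx1 : x ≤ 1 / 24) (ha0 : 0 < a) (ha : a ≤ 251 / 250 * x)
    (ha'0 : 0 < a') (ha' : a' ≤ 251 / 250 * x) (hu0 : 0 ≤ u) (hu1 : u ≤ 1)
    (hv0 : 0 ≤ v) (hv1 : v ≤ 1) (h1 : 1 / 4 - 16 / 25 * x ≤ |a * u ^ 2 - b * (u * v) + a' * v ^ 2|)
    (hb : 0 < b) : 1 / 4 - 16 / 25 * x ≤ b * (u * v) - a * u ^ 2 - a' * v ^ 2 := by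
  have hu2 : u ^ 2 ≤ 1 := by nlinarith
  have hv2 : v ^ 2 ≤ 1 := by nlinarith
  have h2 : a * u ^ 2 ≤ a := by nlinarith
  have h3 : a' * v ^ 2 ≤ a' := by nlinarith
  have h4 : 0 ≤ b * (u * v) := by positivity
  rcases le_abs.1 h1 with h5 | h5
  · exfalso
    linarith
  · linarith

/-- the coordinates are close to `1/2` -/
theorem cell_kappa {x a a' b u v : ℝ} (hx : 0 < x) (hx1 : x ≤ 1 / 24) (ha0 : 0 < a)
    (ha : a ≤ 251 / 250 * x) (ha'0 : 0 < a') (ha' : a' ≤ 251 / 250 * x) (hb : 1 ≤ b)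
    (hb1 : b ≤ 1 + 21 / 10 * x ^ 2)
    (h1 : 1 / 4 - 16 / 25 * x ≤ b * (u * v) - a * u ^ 2 - a' * v ^ 2)
    (h2 : 1 / 4 - 16 / 25 * x ≤ b * ((1 - u) * (1 - v)) - a * (1 - u) ^ 2 - a' * (1 - v) ^ 2)
    (h3 : 1 / 4 - 16 / 25 * x ≤ a * u ^ 2 + b * (u * (1 - v)) + a' * (1 - v) ^ 2)
    (h4 : 1 / 4 - 16 / 25 * x ≤ a * (1 - u) ^ 2 + b * ((1 - u) * v) + a' * v ^ 2) :
    |u - 1 / 2| ≤ 29 / 20 * x ∧ |v - 1 / 2| ≤ 29 / 20 * x := by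
  have e1 : b * (u - 1 / 2) - 2 * a' * (v - 1 / 2) ≤ b / 2 - 1 / 2 + 32 / 25 * x := by linarith
  have e2 : -(b / 2 - 1 / 2 + 32 / 25 * x) ≤ b * (u - 1 / 2) - 2 * a' * (v - 1 / 2) := by linarith
  have e3 : b * (v - 1 / 2) - 2 * a * (u - 1 / 2) ≤ b / 2 - 1 / 2 + 32 / 25 * x := by linarith
  have e4 : -(b / 2 - 1 / 2 + 32 / 25 * x) ≤ b * (v - 1 / 2) - 2 * a * (u - 1 / 2) := by linarith
  set U := u - 1 / 2 with hU
  set V := v - 1 / 2 with hV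
  have hx2 : 0 < x ^ 2 := by positivity
  have hxx : x ^ 2 ≤ x / 24 := by nlinarith
  have hK : b / 2 - 1 / 2 + 32 / 25 * x ≤ 53 / 40 * x := by linarith
  -- combine
  have f1 : b * |U| ≤ 53 / 40 * x + 2 * a' * |V| := by
    have : |b * U| ≤ 53 / 40 * x + 2 * a' * |V| := by
      rw [abs_le]
      have g1 := neg_abs_le V
      have g2 := le_abs_self V
      constructor <;> nlinarith
    rwa [abs_mul, abs_of_pos (by linarith : (0:ℝ) < b)] at this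
  have f2 : b * |V| ≤ 53 / 40 * x + 2 * a * |U| := by
    have : |b * V| ≤ 53 / 40 * x + 2 * a * |U| := by
      rw [abs_le]
      have g1 := neg_abs_le U
      have g2 := le_abs_self U
      constructor <;> nlinarith
    rwa [abs_mul, abs_of_pos (by linarith : (0:ℝ) < b)] at this
  have gU := abs_nonneg U
  have gV := abs_nonneg V
  have f3 : |U| ≤ 53 / 40 * x + 251 / 125 * x * |V| := by nlinarith
  have f4 : |V| ≤ 53 / 40 * x + 251 / 125 * x * |U| := by nlinarith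
  have f5 : |U| ≤ 53 / 40 * x + 251 / 3000 * |V| := by nlinarith
  have f6 : |V| ≤ 53 / 40 * x + 251 / 3000 * |U| := by nlinarith
  constructor <;> linarith

/-- the sum of the coordinates is very close to `1` -/
theorem cell_sum_aux {x a a' b u v : ℝ} (hx : 0 < x) (hx1 : x ≤ 1 / 24) (ha0 : 4 / 5 * x ≤ a)
    (ha'0 : 4 / 5 * x ≤ a') (hb : 1 ≤ b)
    (hb1 : b ≤ 1 + 21 / 10 * x ^ 2) (hu : 0 ≤ u + v)
    (h1 : 1 / 4 - 16 / 25 * x ≤ b * (u * v) - a * u ^ 2 - a' * v ^ 2) :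
    1 - 57 / 100 * x ≤ u + v := by
  set s := u + v with hs
  have h2 : u * v = (s ^ 2 - (u - v) ^ 2) / 4 := by rw [hs]; ring
  have h3 : u ^ 2 + v ^ 2 = (s ^ 2 + (u - v) ^ 2) / 2 := by rw [hs]; ring
  have h4 : 4 / 5 * x * (u ^ 2 + v ^ 2) ≤ a * u ^ 2 + a' * v ^ 2 := by
    nlinarith [sq_nonneg u, sq_nonneg v]
  have h5 : 1 / 4 - 16 / 25 * x ≤ s ^ 2 * (b / 4 - 2 / 5 * x) := by
    have h6 : b * (u * v) ≤ b * (s ^ 2 / 4) := by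
      rw [h2]
      nlinarith [sq_nonneg (u - v)]
    have h7 : s ^ 2 / 2 ≤ u ^ 2 + v ^ 2 := by
      rw [h3]
      nlinarith [sq_nonneg (u - v)]
    nlinarith
  by_contra hcon
  push Not at hcon
  have hxx : x ^ 2 ≤ x / 24 := by nlinarith
  have h8 : s ^ 2 < (1 - 57 / 100 * x) ^ 2 := by
    nlinarith
  have h9 : b / 4 - 2 / 5 * x ≤ 1 / 4 + 21 / 40 * x ^ 2 - 2 / 5 * x := by linarith
  have h10 : 0 < b / 4 - 2 / 5 * x := by linarith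
  have h11 : s ^ 2 * (b / 4 - 2 / 5 * x) ≤
      (1 - 57 / 100 * x) ^ 2 * (1 / 4 + 21 / 40 * x ^ 2 - 2 / 5 * x) :=
    mul_le_mul h8.le h9 h10.le (sq_nonneg _)
  have h12 : (1 - 57 / 100 * x) ^ 2 * (1 / 4 + 21 / 40 * x ^ 2 - 2 / 5 * x) <
      1 / 4 - 16 / 25 * x := by
    have e : (1 / 4 - 16 / 25 * x) -
        (1 - 57 / 100 * x) ^ 2 * (1 / 4 + 21 / 40 * x ^ 2 - 2 / 5 * x) =
        x * (9 / 200 - x * (21 / 40 + 57 / 125 + 3249 / 40000) +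
          x ^ 2 * (3249 / 25000 + 57 * 21 / 2000) - x ^ 3 * (3249 * 21 / 400000)) := by ring
    have e2 : 0 < 9 / 200 - x * (21 / 40 + 57 / 125 + 3249 / 40000) +
          x ^ 2 * (3249 / 25000 + 57 * 21 / 2000) - x ^ 3 * (3249 * 21 / 400000) := by
      nlinarith [sq_nonneg x, mul_pos hx hx]
    have := mul_pos hx e2
    linarith
  linarith

theorem cell_sum {x a a' b u v : ℝ} (hx : 0 < x) (hx1 : x ≤ 1 / 24) (ha0 : 4 / 5 * x ≤ a)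
    (ha'0 : 4 / 5 * x ≤ a') (hb : 1 ≤ b)
    (hb1 : b ≤ 1 + 21 / 10 * x ^ 2) (hu0 : 0 ≤ u) (hu1 : u ≤ 1) (hv0 : 0 ≤ v) (hv1 : v ≤ 1)
    (h1 : 1 / 4 - 16 / 25 * x ≤ b * (u * v) - a * u ^ 2 - a' * v ^ 2)
    (h2 : 1 / 4 - 16 / 25 * x ≤ b * ((1 - u) * (1 - v)) - a * (1 - u) ^ 2 - a' * (1 - v) ^ 2) :
    |u + v - 1| ≤ 57 / 100 * x := by
  have e1 := cell_sum_aux hx hx1 ha0 ha'0 hb hb1 (by linarith) h1
  have e2 := cell_sum_aux hx hx1 ha0 ha'0 hb hb1 (by linarith : (0:ℝ) ≤ (1 - u) + (1 - v)) h2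
  rw [abs_le]
  constructor <;> linarith

end Pool.Agent.H93.BSD
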