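import Pool.Agent.H93.BSD.Val

/-!
# The two largest values of the spectrum
-/

namespace Pool.Agent.H93.BSD

variable {d : ℤ → ℤ} {A B s : ℤ → ℝ} {x : ℝ}

/-- the classification in terms of the values -/
theorem mu_eq_pt {z : ℤ → ℝ} {σ : ℝ} (hz : ∀ n, dt z n = tau s σ n) :
    mu A B (z (-1), z 0) = mu A B (pt s σ) := by
  have h1 := hz (-1)
  have h2 := hz 0
  have h3 := mu_trans (A := A) (B := B) (pt s σ) ⌊z (-1)⌋ ⌊z 0⌋
  rw [← h3]
  congr 1
  unfold pt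
  unfold dt Int.fract at h1 h2
  ext
  · simp only
    linarith
  · simp only
    linarith

theorem Vp_zero (n : ℤ) : Vp A B s 0 n = (B n - A n - A (n - 1)) / 4 := by
  unfold Vp tau q
  ring

theorem Vm_zero (n : ℤ) : Vm A B s 0 n = (B n - A n - A (n - 1)) / 4 := by
  unfold Vm tau q
  ring

theorem even_par (hev : ∀ n, Even (d n)) (k : ℤ) (n : ℤ) :
    ∃ m : ℤ, (d n : ℝ) / 2 + sg n * (k : ℝ) = m := by
  obtain ⟨j, hj⟩ := hev n
  have hj' : (d n : ℝ) = j + j := by exact_mod_cast hj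
  rcases sg_or n with h | h
  · exact ⟨j + k, by rw [h, hj']; push_cast; ring⟩
  · exact ⟨j - k, by rw [h, hj']; push_cast; ring⟩

theorem odd_par (hodd : ∀ n, Odd (d n)) (n : ℤ) :
    ∃ m : ℤ, (d n : ℝ) / 2 + sg n * (1 / 2 : ℝ) = m := by
  obtain ⟨j, hj⟩ := hodd n
  have hj' : (d n : ℝ) = 2 * j + 1 := by exact_mod_cast hj
  rcases sg_or n with h | h
  · exact ⟨j + 1, by rw [h, hj']; push_cast; ring⟩
  · exact ⟨j, by rw [h, hj']; ring⟩

theorem exists_sol' (d : ℤ → ℤ) (p : ℝ × ℝ) :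
    ∃ z : ℤ → ℝ, IsSol d z ∧ (z (-1), z 0) = p := by
  obtain ⟨z, hz, h1, h2⟩ := exists_sol (R := ℝ) d 0 p.1 p.2
  rw [zero_sub] at h1
  exact ⟨z, hz, by rw [h1, h2]⟩

/-- even digits -/
theorem core_even (h : Chain d A B) (b : Bds d A B s x) (hev : ∀ n, Even (d n)) {v0 v1 : ℝ}
    (h0 : ∃ n, v0 = (B n - A n - A (n - 1)) / 4) (h0' : ∀ n, v0 ≤ (B n - A n - A (n - 1)) / 4)
    (h1 : ∃ n, v1 = Vp A B s 1 n ∨ v1 = Vm A B s 1 n)
    (h1' : ∀ n, v1 ≤ Vp A B s 1 n ∧ v1 ≤ Vm A B s 1 n) :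
    mu A B (pt s 0) = v0 ∧ mu A B (pt s 1) = v1 ∧ v1 < v0 ∧
      ∀ p, mu A B p ≤ v1 ∨ mu A B p = v0 := by
  have hx := b.hx
  have hx1 := b.hx1
  have p0 : ∀ n, ∃ m : ℤ, (d n : ℝ) / 2 + sg n * (0 : ℝ) = m := by
    intro n
    have := even_par hev 0 n
    simpa using this
  have p1 : ∀ n, ∃ m : ℤ, (d n : ℝ) / 2 + sg n * (1 : ℝ) = m := by
    intro n
    have := even_par hev 1 n
    simpa using this
  have hx2 : x ^ 2 ≤ x / 24 := by nlinarith
  -- value at the two-torsion point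
  have e0 : mu A B (pt s 0) = v0 := by
    apply le_antisymm
    · obtain ⟨n, hn⟩ := h0
      have g := (mu_pt_le (A := A) (B := B) h b p0 n).1
      rw [Vp_zero, ← hn, abs_of_nonneg] at g
      · exact g
      · rw [hn]
        have := b.Blo n
        have := b.Ahi n
        have := b.Ahi (n - 1)
        linarith
    · refine le_mu_pt h b le_rfl zero_le_one p0 ?_ (fun n => ?_) (fun n => ?_)
      · have := h0' 0
        have := b.Bhi 0
        have := b.Alo 0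
        have := b.Alo (0 - 1)
        linarith
      · rw [Vp_zero]; exact h0' n
      · rw [Vm_zero]; exact h0' n
  -- lower bound for the second value
  have hlow := V_lower h b zero_le_one le_rfl (num_one hx hx1)
  have hv1lo : 1 / 4 - 16 / 25 * x ≤ v1 := by
    obtain ⟨n, hn | hn⟩ := h1
    · rw [hn]; exact (hlow n).1
    · rw [hn]; exact (hlow n).2
  have hlt : v1 < v0 := by
    obtain ⟨n, hn⟩ := h0
    have g1 := (h1' n).1
    have g2 := (h1' n).2
    have hsum : Vp A B s 1 n + Vm A B s 1 n =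
        (B n - A n - A (n - 1)) / 2 - 2 * B n * (s (n - 1) * s n) - 2 * A n * s (n - 1) ^ 2 -
          2 * A (n - 1) * s n ^ 2 := by
      have ep : tau s 1 (n - 1) = - sg n * (1 * s (n - 1)) := by unfold tau; rw [sg_pred]
      have eq : tau s 1 n = sg n * (1 * s n) := rfl
      unfold Vp Vm q
      rw [ep, eq]
      rcases sg_or n with h | h <;> · rw [h]; ring
    have q1 : 0 < B n * (s (n - 1) * s n) :=
      mul_pos (h.posB n) (mul_pos (b.spos _) (b.spos _))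
    have q2 : 0 ≤ A n * s (n - 1) ^ 2 := mul_nonneg (h.posA n).le (sq_nonneg _)
    have q3 : 0 ≤ A (n - 1) * s n ^ 2 := mul_nonneg (h.posA _).le (sq_nonneg _)
    rw [hn]
    linarith
  have e1 : mu A B (pt s 1) = v1 := by
    apply le_antisymm
    · obtain ⟨n, hn | hn⟩ := h1
      · have g := (mu_pt_le (A := A) (B := B) h b p1 n).1
        rw [← hn, abs_of_nonneg (by linarith)] at g
        exact g
      · have g := (mu_pt_le (A := A) (B := B) h b p1 n).2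
        rw [← hn, abs_of_nonneg (by linarith)] at g
        exact g
    · refine le_mu_pt h b zero_le_one le_rfl p1 ?_ (fun n => (h1' n).1) (fun n => (h1' n).2)
      have := h0' 0
      have := b.Bhi 0
      have := b.Alo 0
      have := b.Alo (0 - 1)
      linarith
  refine ⟨e0, e1, hlt, fun p => ?_⟩
  rcases le_or_gt (mu A B p) v1 with hp | hp
  · exact Or.inl hp
  obtain ⟨z, hz, hzp⟩ := exists_sol' d p
  rw [← hzp] at hp ⊢
  obtain ⟨σ, hσ, hpar, hσ2⟩ := classify h b (fun n => (hev n).add (hev _)) hz (by linarith)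
  have hint : ∃ k : ℤ, σ = k := by
    obtain ⟨m, hm⟩ := hpar 0
    obtain ⟨j, hj⟩ := hev 0
    have hj' : (d 0 : ℝ) = j + j := by exact_mod_cast hj
    have hs0 : sg 0 = 1 := by simp [sg]
    rw [hs0, hj'] at hm
    exact ⟨m - j, by push_cast; linarith⟩
  obtain ⟨k, hk⟩ := hint
  have hk2 : |k| < 2 := by
    rw [hk] at hσ2
    exact_mod_cast hσ2
  rw [abs_lt] at hk2
  have hk3 : k = 0 ∨ k = 1 ∨ k = -1 := by omega
  have hmu := mu_eq_pt (A := A) (B := B) hσ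
  rcases hk3 with hk3 | hk3 | hk3
  · right
    rw [hmu, hk, hk3, Int.cast_zero, e0]
  · exfalso
    rw [hmu, hk, hk3, Int.cast_one, e1] at hp
    exact lt_irrefl _ hp
  · exfalso
    rw [hmu, hk, hk3] at hp
    have : pt s ((-1 : ℤ) : ℝ) = pt s (-1) := by norm_num
    rw [this, pt_neg, e1] at hp
    exact lt_irrefl _ hp

theorem three_aux (h : Chain d A B) (b : Bds d A B s x) (n : ℤ) {u v : ℝ}
    (hu : u = 1 / 2 - 3 / 2 * s (n - 1)) (hv : v = 1 / 2 - 3 / 2 * s n) :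
    A n * u ^ 2 + B n * (u * v) + A (n - 1) * v ^ 2 < 1 / 4 - 29 / 50 * x := by
  have hx := b.hx
  have hx1 := b.hx1
  have s1 := b.slo n
  have s2 := b.slo (n - 1)
  have s3 := b.sx n
  have s4 := b.sx (n - 1)
  set w := 1 / 2 - 3 / 2 * (4 / 5 * x * (1 - 2 * x)) with hw
  have u0 : 0 ≤ u := by linarith
  have v0 : 0 ≤ v := by linarith
  have u1 : u ≤ w := by linarith
  have v1 : v ≤ w := by linarith
  have w0 : 0 ≤ w := u0.trans u1
  have a1 : u ^ 2 ≤ w ^ 2 := pow_le_pow_left₀ u0 u1 2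
  have a2 : v ^ 2 ≤ w ^ 2 := pow_le_pow_left₀ v0 v1 2
  have a3 : u * v ≤ w ^ 2 := by rw [sq]; exact mul_le_mul u1 v1 v0 w0
  have b1 : A n * u ^ 2 ≤ 251 / 250 * x * w ^ 2 :=
    mul_le_mul (b.Ahi n) a1 (sq_nonneg _) (by linarith)
  have b2 : A (n - 1) * v ^ 2 ≤ 251 / 250 * x * w ^ 2 :=
    mul_le_mul (b.Ahi _) a2 (sq_nonneg _) (by linarith)
  have b3 : B n * (u * v) ≤ (1 + 21 / 10 * x ^ 2) * w ^ 2 :=
    mul_le_mul (b.Bhi n) a3 (mul_nonneg u0 v0) (by positivity)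
  have := num_three hx hx1
  rw [← hw] at this
  linarith

/-- odd digits -/
theorem core_odd (h : Chain d A B) (b : Bds d A B s x) (hodd : ∀ n, Odd (d n)) {v0 : ℝ}
    (h1 : ∃ n, v0 = Vp A B s (1 / 2) n ∨ v0 = Vm A B s (1 / 2) n)
    (h1' : ∀ n, v0 ≤ Vp A B s (1 / 2) n ∧ v0 ≤ Vm A B s (1 / 2) n) :
    mu A B (pt s (1 / 2)) = v0 ∧ 1 / 4 - 29 / 50 * x < v0 ∧
      ∀ p, mu A B p ≤ 1 / 4 - 29 / 50 * x ∨ mu A B p = v0 := by
  have hx := b.hx
  have hx1 := b.hx1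
  have p1 := odd_par hodd
  have hx2 : x ^ 2 ≤ x / 24 := by nlinarith
  have hlow := V_lower h b (by norm_num : (0 : ℝ) ≤ 1 / 2) (by norm_num) (num_half hx hx1)
  have hv1lo : 1 / 4 - 57 / 100 * x ≤ v0 := by
    obtain ⟨n, hn | hn⟩ := h1
    · rw [hn]; exact (hlow n).1
    · rw [hn]; exact (hlow n).2
  have hq : v0 ≤ 1 / 4 := by
    have g1 := (h1' 0).1
    have g2 := (h1' 0).2
    have hsum : Vp A B s (1 / 2) 0 + Vm A B s (1 / 2) 0 =
        (B 0 - A 0 - A (0 - 1)) / 2 - B 0 / 2 * (s (0 - 1) * s 0) - A 0 / 2 * s (0 - 1) ^ 2 -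
          A (0 - 1) / 2 * s 0 ^ 2 := by
      have ep : tau s (1 / 2) (0 - 1) = - sg 0 * (1 / 2 * s (0 - 1)) := by unfold tau; rw [sg_pred]
      have eq : tau s (1 / 2) 0 = sg 0 * (1 / 2 * s 0) := rfl
      unfold Vp Vm q
      rw [ep, eq]
      rcases sg_or 0 with h | h <;> · rw [h]; ring
    have q1 : 0 < B 0 * (s (0 - 1) * s 0) :=
      mul_pos (h.posB 0) (mul_pos (b.spos _) (b.spos _))
    have q2 : 0 ≤ A 0 * s (0 - 1) ^ 2 := mul_nonneg (h.posA 0).le (sq_nonneg _)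
    have q3 : 0 ≤ A (0 - 1) * s 0 ^ 2 := mul_nonneg (h.posA _).le (sq_nonneg _)
    have t1 := b.Bhi 0
    have t2 := b.Alo 0
    have t3 := b.Alo (0 - 1)
    generalize (0 - 1 : ℤ) = m1 at hsum q1 q2 q3 t3
    linarith
  have e1 : mu A B (pt s (1 / 2)) = v0 := by
    apply le_antisymm
    · obtain ⟨n, hn | hn⟩ := h1
      · have g := (mu_pt_le (A := A) (B := B) h b p1 n).1
        rw [← hn, abs_of_nonneg (by linarith)] at g
        exact g
      · have g := (mu_pt_le (A := A) (B := B) h b p1 n).2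
        rw [← hn, abs_of_nonneg (by linarith)] at g
        exact g
    · exact le_mu_pt h b (by norm_num) (by norm_num) p1 hq (fun n => (h1' n).1)
        (fun n => (h1' n).2)
  refine ⟨e1, by linarith, fun p => ?_⟩
  rcases le_or_gt (mu A B p) (1 / 4 - 29 / 50 * x) with hp | hp
  · exact Or.inl hp
  right
  obtain ⟨z, hz, hzp⟩ := exists_sol' d p
  rw [← hzp] at hp ⊢
  obtain ⟨σ, hσ, hpar, hσ2⟩ := classify h b (fun n => (hodd n).add_odd (hodd _)) hz (by linarith)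
  have hs0 : sg 0 = 1 := by simp [sg]
  have hsm : sg (0 - 1) = -1 := by rw [sg_pred, hs0]
  have hint : ∃ k : ℤ, σ = k + 1 / 2 := by
    obtain ⟨m, hm⟩ := hpar 0
    obtain ⟨j, hj⟩ := hodd 0
    have hj' : (d 0 : ℝ) = 2 * j + 1 := by exact_mod_cast hj
    rw [hs0, hj'] at hm
    exact ⟨m - j - 1, by push_cast; linarith⟩
  obtain ⟨k, hk⟩ := hint
  have hk3 : k = 0 ∨ k = -1 ∨ k = 1 ∨ k = -2 := by
    rw [abs_lt, hk] at hσ2
    have g1 : (-3 : ℝ) < k := by linarith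
    have g2 : (k : ℝ) < 2 := by linarith
    have g1' : -3 < k := by exact_mod_cast g1
    have g2' : k < 2 := by exact_mod_cast g2
    omega
  have hmu := mu_eq_pt (A := A) (B := B) hσ
  have d0 := hσ 0
  have dm := hσ (0 - 1)
  unfold tau at d0 dm
  rw [hs0] at d0
  rw [hsm] at dm
  unfold dt at d0 dm
  rcases hk3 with hk3 | hk3 | hk3 | hk3
  · rw [hmu, hk, hk3, Int.cast_zero, zero_add, e1]
  · have e : σ = - (1 / 2) := by rw [hk, hk3]; norm_num
    rw [hmu, e, pt_neg, e1]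
  · exfalso
    have e : σ = 3 / 2 := by rw [hk, hk3]; norm_num
    rw [e] at d0 dm
    have g := h.mu_le_at hz 0 (-⌊z (0 - 1)⌋) (-⌊z 0⌋ - 1)
    have e1 : z (0 - 1) + ((-⌊z (0 - 1)⌋ : ℤ) : ℝ) = 1 / 2 - 3 / 2 * s (0 - 1) := by
      unfold Int.fract at dm; push_cast; linarith
    have e2 : z 0 + ((-⌊z 0⌋ - 1 : ℤ) : ℝ) = - (1 / 2 - 3 / 2 * s 0) := by
      unfold Int.fract at d0; push_cast; linarith
    rw [e1, e2] at g
    have t := three_aux h b 0 rfl rfl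
    have e3 : q A B 0 (1 / 2 - 3 / 2 * s (0 - 1)) (- (1 / 2 - 3 / 2 * s 0)) =
        A 0 * (1 / 2 - 3 / 2 * s (0 - 1)) ^ 2 + B 0 * ((1 / 2 - 3 / 2 * s (0 - 1)) *
          (1 / 2 - 3 / 2 * s 0)) + A (0 - 1) * (1 / 2 - 3 / 2 * s 0) ^ 2 := by
      unfold q; ring
    rw [e3, abs_of_nonneg] at g
    · linarith
    · have s3 := b.sx 0
      have s4 := b.sx (0 - 1)
      have u0 : 0 ≤ 1 / 2 - 3 / 2 * s (0 - 1) := by
        generalize s (0 - 1) = r at s4
        linarith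
      have v0 : 0 ≤ 1 / 2 - 3 / 2 * s 0 := by linarith
      have := h.posA 0
      have := h.posA (0 - 1)
      have := h.posB 0
      positivity
  · exfalso
    have e : σ = - (3 / 2) := by rw [hk, hk3]; norm_num
    rw [e] at d0 dm
    have g := h.mu_le_at hz 0 (-⌊z (0 - 1)⌋ - 1) (-⌊z 0⌋)
    have e1 : z (0 - 1) + ((-⌊z (0 - 1)⌋ - 1 : ℤ) : ℝ) = - (1 / 2 - 3 / 2 * s (0 - 1)) := by
      unfold Int.fract at dm; push_cast; linarith
    have e2 : z 0 + ((-⌊z 0⌋ : ℤ) : ℝ) = 1 / 2 - 3 / 2 * s 0 := by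
      unfold Int.fract at d0; push_cast; linarith
    rw [e1, e2] at g
    have t := three_aux h b 0 rfl rfl
    have e3 : q A B 0 (- (1 / 2 - 3 / 2 * s (0 - 1))) (1 / 2 - 3 / 2 * s 0) =
        A 0 * (1 / 2 - 3 / 2 * s (0 - 1)) ^ 2 + B 0 * ((1 / 2 - 3 / 2 * s (0 - 1)) *
          (1 / 2 - 3 / 2 * s 0)) + A (0 - 1) * (1 / 2 - 3 / 2 * s 0) ^ 2 := by
      unfold q; ring
    rw [e3, abs_of_nonneg] at g
    · linarith
    · have s3 := b.sx 0
      have s4 := b.sx (0 - 1)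
      have u0 : 0 ≤ 1 / 2 - 3 / 2 * s (0 - 1) := by
        generalize s (0 - 1) = r at s4
        linarith
      have v0 : 0 ≤ 1 / 2 - 3 / 2 * s 0 := by linarith
      have := h.posA 0
      have := h.posA (0 - 1)
      have := h.posB 0
      positivity

end Pool.Agent.H93.BSD
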