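import Pool.Agent.H93.BSD.Form

/-!
# The period matrices of a minus continued fraction
-/

namespace Pool.Agent.H93.BSD

/-- the elementary matrix of a digit -/
def T (d : ℤ) : Matrix (Fin 2) (Fin 2) ℤ := !![d, -1; 1, 0]

/-- the product of `j` consecutive elementary matrices -/
def P (d : ℤ → ℤ) (n : ℤ) : ℕ → Matrix (Fin 2) (Fin 2) ℤ
  | 0 => 1
  | j + 1 => P d n j * T (d (n + j))

theorem mT00 (M : Matrix (Fin 2) (Fin 2) ℤ) (d : ℤ) : (M * T d) 0 0 = M 0 0 * d + M 0 1 := by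
  simp [T, Matrix.mul_apply, Fin.sum_univ_two]

theorem mT01 (M : Matrix (Fin 2) (Fin 2) ℤ) (d : ℤ) : (M * T d) 0 1 = - M 0 0 := by
  simp [T, Matrix.mul_apply, Fin.sum_univ_two]

theorem mT10 (M : Matrix (Fin 2) (Fin 2) ℤ) (d : ℤ) : (M * T d) 1 0 = M 1 0 * d + M 1 1 := by
  simp [T, Matrix.mul_apply, Fin.sum_univ_two]

theorem mT11 (M : Matrix (Fin 2) (Fin 2) ℤ) (d : ℤ) : (M * T d) 1 1 = - M 1 0 := by
  simp [T, Matrix.mul_apply, Fin.sum_univ_two]

theorem Tm00 (M : Matrix (Fin 2) (Fin 2) ℤ) (d : ℤ) : (T d * M) 0 0 = d * M 0 0 - M 1 0 := by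
  simp [T, Matrix.mul_apply, Fin.sum_univ_two]
  ring

theorem Tm01 (M : Matrix (Fin 2) (Fin 2) ℤ) (d : ℤ) : (T d * M) 0 1 = d * M 0 1 - M 1 1 := by
  simp [T, Matrix.mul_apply, Fin.sum_univ_two]
  ring

theorem Tm10 (M : Matrix (Fin 2) (Fin 2) ℤ) (d : ℤ) : (T d * M) 1 0 = M 0 0 := by
  simp [T, Matrix.mul_apply, Fin.sum_univ_two]

theorem Tm11 (M : Matrix (Fin 2) (Fin 2) ℤ) (d : ℤ) : (T d * M) 1 1 = M 0 1 := by
  simp [T, Matrix.mul_apply, Fin.sum_univ_two]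

theorem P_left (d : ℤ → ℤ) (n : ℤ) (j : ℕ) : T (d n) * P d (n + 1) j = P d n (j + 1) := by
  induction j with
  | zero => simp [P]
  | succ j ih =>
    change T (d n) * (P d (n + 1) j * T (d (n + 1 + j))) = P d n (j + 1) * T (d (n + (j + 1 : ℕ)))
    rw [← mul_assoc, ih]
    congr 3
    push_cast
    ring

theorem P_det (d : ℤ → ℤ) (n : ℤ) (j : ℕ) : (P d n j).det = 1 := by
  induction j with
  | zero => simp [P]
  | succ j ih =>
    change (P d n j * T (d (n + j))).det = 1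
    rw [Matrix.det_mul, ih, one_mul, T, Matrix.det_fin_two]
    simp

theorem P_per {k : ℕ} {d : ℤ → ℤ} (hd : ∀ n, d (n + k) = d n) (n : ℤ) (j : ℕ) :
    P d (n + k) j = P d n j := by
  induction j with
  | zero => rfl
  | succ j ih =>
    change P d (n + k) j * T (d (n + k + j)) = P d n j * T (d (n + j))
    rw [ih]
    have e : n + k + j = n + j + k := by ring
    rw [e, hd]

/-- sign and size conditions of the partial products -/
structure Inv (M : Matrix (Fin 2) (Fin 2) ℤ) : Prop where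
  r0 : 0 < M 1 0
  rp : M 1 0 ≤ M 0 0
  q0 : M 0 1 < 0
  qs : M 0 1 ≤ M 1 1
  qp : - M 0 1 ≤ M 0 0
  sr : - M 1 1 ≤ M 1 0
  s0 : M 1 1 ≤ 0
  mo : M 1 0 + M 1 1 ≤ M 0 0 + M 0 1
  tr : 3 ≤ M 0 0 + M 1 1

theorem Inv.mul {M : Matrix (Fin 2) (Fin 2) ℤ} (h : Inv M) {d : ℤ} (hd : 24 ≤ d) :
    Inv (M * T d) := by
  have h1 := h.r0
  have h2 := h.rp
  have h3 := h.q0
  have h4 := h.qs
  have h5 := h.qp
  have h6 := h.sr
  have h7 := h.s0
  have h8 := h.mo
  have g1 : 0 ≤ M 1 0 * (d - 24) := mul_nonneg h1.le (by linarith)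
  have g2 : 0 ≤ M 0 0 * (d - 24) := mul_nonneg (by linarith) (by linarith)
  have g3 : 0 ≤ (M 0 0 - M 1 0) * (d - 24) := mul_nonneg (by linarith) (by linarith)
  refine ⟨?_, ?_, ?_, ?_, ?_, ?_, ?_, ?_, ?_⟩ <;>
    simp only [mT00, mT01, mT10, mT11] <;> nlinarith

theorem P_inv {d : ℤ → ℤ} (hd : ∀ n, 24 ≤ d n) (n : ℤ) (j : ℕ) : Inv (P d n (j + 1)) := by
  induction j with
  | zero =>
    have e : P d n (0 + 1) = T (d n) := by
      change P d n 0 * T (d (n + (0 : ℕ))) = _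
      simp [P]
    rw [e]
    have := hd n
    refine ⟨?_, ?_, ?_, ?_, ?_, ?_, ?_, ?_, ?_⟩ <;> simp [T] <;> linarith
  | succ j ih => exact ih.mul (hd _)

theorem P_shift {k : ℕ} {d : ℤ → ℤ} (hd : ∀ n, d (n + k) = d n) (n : ℤ) :
    T (d n) * P d (n + 1) k = P d n k * T (d n) := by
  rw [P_left]
  change P d n k * T (d (n + k)) = _
  rw [hd]

/-- the integral chain of a periodic sequence of digits -/
theorem chain_of {k : ℕ} (hk : 0 < k) {d : ℤ → ℤ} (hd : ∀ n, d (n + k) = d n)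
    (h24 : ∀ n, 24 ≤ d n) :
    ∃ (A B : ℤ → ℤ) (t : ℤ), 3 ≤ t ∧ P d 0 k 1 0 = A 0 ∧ P d 0 k 0 1 = - A (-1) ∧
      P d 0 k 0 0 - P d 0 k 1 1 = B 0 ∧ (∀ n, 0 < A n) ∧ (∀ n, 0 < B n) ∧
      (∀ n, A (n + k) = A n) ∧ (∀ n, B (n + k) = B n) ∧
      (∀ n, B n + B (n + 1) = 2 * d n * A n) ∧
      ∀ n, B n ^ 2 - 4 * A n * A (n - 1) = t ^ 2 - 4 := by
  obtain ⟨j, rfl⟩ : ∃ j, k = j + 1 := ⟨k - 1, by omega⟩
  have hinv : ∀ n, Inv (P d n (j + 1)) := fun n => P_inv h24 n j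
  have s00 : ∀ n, P d (n + 1) (j + 1) 0 0 = P d n (j + 1) 1 0 * d n + P d n (j + 1) 1 1 := by
    intro n
    have h := congrFun (congrFun (P_shift hd n) 1) 0
    rwa [Tm10, mT10] at h
  have s01 : ∀ n, P d (n + 1) (j + 1) 0 1 = - P d n (j + 1) 1 0 := by
    intro n
    have h := congrFun (congrFun (P_shift hd n) 1) 1
    rwa [Tm11, mT11] at h
  have s11 : ∀ n, P d (n + 1) (j + 1) 1 1 = P d n (j + 1) 0 0 - d n * P d n (j + 1) 1 0 := by
    intro n
    have h := congrFun (congrFun (P_shift hd n) 0) 1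
    rw [Tm01, mT01, s01] at h
    linarith
  have htr : ∀ n, P d n (j + 1) 0 0 + P d n (j + 1) 1 1 =
      P d 0 (j + 1) 0 0 + P d 0 (j + 1) 1 1 := by
    refine two_sided 0 rfl ?_ ?_
    · intro n hn
      rw [s00, s11, ← hn]
      ring
    · intro n hn
      have h1 := s00 (n - 1)
      have h2 := s11 (n - 1)
      have e : n - 1 + 1 = n := by ring
      rw [e] at h1 h2
      rw [← hn, h1, h2]
      ring
  refine ⟨fun n => P d n (j + 1) 1 0, fun n => P d n (j + 1) 0 0 - P d n (j + 1) 1 1,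
    P d 0 (j + 1) 0 0 + P d 0 (j + 1) 1 1, (hinv 0).tr, rfl, ?_, rfl, fun n => (hinv n).r0,
    ?_, ?_, ?_, ?_, ?_⟩
  · have := s01 (-1)
    have e : (-1 : ℤ) + 1 = 0 := by norm_num
    rw [e] at this
    exact this
  · intro n
    have h1 := (hinv n).rp
    have h2 := (hinv n).r0
    have h3 := (hinv n).s0
    change 0 < P d n (j + 1) 0 0 - P d n (j + 1) 1 1
    linarith
  · intro n
    change P d (n + (j + 1 : ℕ)) (j + 1) 1 0 = P d n (j + 1) 1 0
    rw [P_per hd]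
  · intro n
    change P d (n + (j + 1 : ℕ)) (j + 1) 0 0 - P d (n + (j + 1 : ℕ)) (j + 1) 1 1 =
      P d n (j + 1) 0 0 - P d n (j + 1) 1 1
    rw [P_per hd]
  · intro n
    change P d n (j + 1) 0 0 - P d n (j + 1) 1 1 +
      (P d (n + 1) (j + 1) 0 0 - P d (n + 1) (j + 1) 1 1) = 2 * d n * P d n (j + 1) 1 0
    rw [s00, s11]
    ring
  · intro n
    change (P d n (j + 1) 0 0 - P d n (j + 1) 1 1) ^ 2 -
      4 * P d n (j + 1) 1 0 * P d (n - 1) (j + 1) 1 0 = _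
    have h1 := s01 (n - 1)
    have e : n - 1 + 1 = n := by ring
    rw [e] at h1
    have h2 : P d (n - 1) (j + 1) 1 0 = - P d n (j + 1) 0 1 := by rw [h1]; ring
    have h3 := P_det d n (j + 1)
    rw [Matrix.det_fin_two] at h3
    rw [h2, ← htr n]
    linear_combination (-4) * h3

theorem range_prod (d : ℤ → ℤ) (f : ℕ → ℤ) (k : ℕ) (h : ∀ i < k, d i = f i) :
    ((List.range k).map fun i => (!![f i, -1; 1, 0] : Matrix (Fin 2) (Fin 2) ℤ)).prod =
      P d 0 k := by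
  induction k with
  | zero => simp [P]
  | succ k ih =>
    rw [List.range_succ, List.map_append, List.prod_append, ih fun i hi => h i (by omega)]
    change _ = P d 0 k * T (d (0 + k))
    rw [zero_add, h k (by omega), T]
    simp

end Pool.Agent.H93.BSD
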