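import Mathlib

/-!
# The periodic rational solution of `d n * s n + s (n+1) + s (n-1) = 1`
-/

namespace Pool.Agent.H93.BSD

theorem exists_per {k : ℕ} (hk : 0 < k) {d : ℤ → ℤ} (hd : ∀ n, d (n + k) = d n)
    (h3 : ∀ n, 3 ≤ d n) :
    ∃ s : ℤ → ℚ, (∀ n, s (n + k) = s n) ∧ ∀ n, d n * s n + s (n + 1) + s (n - 1) = 1 := by
  have : NeZero k := ⟨hk.ne'⟩
  let c : ZMod k → ℚ := fun i => d (i.val : ℤ)
  have hper : Function.Periodic d (k : ℤ) := hd
  have hc : ∀ n : ℤ, c (n : ZMod k) = d n := by
    intro n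
    change ((d (((n : ZMod k)).val : ℤ) : ℤ) : ℚ) = d n
    rw [ZMod.val_intCast]
    congr 1
    have := hper.sub_zsmul_eq (n / k) (x := n)
    rw [← this]
    congr 1
    rw [smul_eq_mul]
    have := Int.emod_add_mul_ediv n k
    linarith [mul_comm (n / k) (k : ℤ)]
  have hc3 : ∀ i, 3 ≤ c i := by
    intro i
    change (3 : ℚ) ≤ ((d (i.val : ℤ) : ℤ) : ℚ)
    exact_mod_cast h3 _
  let L : (ZMod k → ℚ) →ₗ[ℚ] (ZMod k → ℚ) :=
    { toFun := fun f i => c i * f i + f (i + 1) + f (i - 1)
      map_add' := by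
        intro f g
        funext i
        simp only [Pi.add_apply]
        ring
      map_smul' := by
        intro r f
        funext i
        simp only [Pi.smul_apply, smul_eq_mul, RingHom.id_apply]
        ring }
  have hinj : Function.Injective L := by
    rw [injective_iff_map_eq_zero]
    intro f hf
    obtain ⟨i, _, hi⟩ := Finset.exists_max_image (Finset.univ : Finset (ZMod k))
      (fun i => |f i|) Finset.univ_nonempty
    have h1 : c i * f i + f (i + 1) + f (i - 1) = 0 := congrFun hf i
    have h2 : c i * |f i| ≤ |f i| + |f i| := by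
      have e : c i * |f i| = |c i * f i| := by
        rw [abs_mul, abs_of_nonneg (by linarith [hc3 i] : (0 : ℚ) ≤ c i)]
      have e2 : c i * f i = - (f (i + 1) + f (i - 1)) := by linarith
      rw [e, e2, abs_neg]
      refine (abs_add_le _ _).trans (add_le_add (hi _ (Finset.mem_univ _)) (hi _ (Finset.mem_univ _)))
    have h4 := mul_le_mul_of_nonneg_right (hc3 i) (abs_nonneg (f i))
    have h5 : |f i| ≤ 0 := by linarith [abs_nonneg (f i)]
    funext j
    have h6 := hi j (Finset.mem_univ _)
    have h7 : |f j| ≤ 0 := h6.trans h5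
    exact abs_eq_zero.1 (le_antisymm h7 (abs_nonneg _))
  have hsurj : Function.Surjective L := LinearMap.surjective_of_injective hinj
  obtain ⟨f, hf⟩ := hsurj 1
  refine ⟨fun n => f (n : ZMod k), fun n => ?_, fun n => ?_⟩
  · change f ((n + k : ℤ) : ZMod k) = f (n : ZMod k)
    congr 1
    push_cast
    simp
  · have h1 : c (n : ZMod k) * f (n : ZMod k) + f ((n : ZMod k) + 1) + f ((n : ZMod k) - 1) = 1 :=
      congrFun hf (n : ZMod k)
    rw [hc] at h1
    push_cast
    exact h1

end Pool.Agent.H93.BSD
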