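import Pool.Agent.H93.BSD.Core
import Pool.Agent.H93.BSD.Bd
import Pool.Agent.H93.BSD.Per
import Pool.Agent.H93.BSD.Mat

/-!
# Assembly
-/

namespace Pool.Agent.H93.BSD

/-- data of a periodic chain -/
theorem setup {k : ℕ} (hk : 0 < k) {d : ℤ → ℤ} (hd : ∀ n, d (n + k) = d n) {a b : ℤ}
    (hda : ∀ n, a ≤ d n) (hdb : ∀ n, d n ≤ b) (ha : 24 ≤ a) (hab : 4 * b ≤ 5 * a) :
    ∃ (A' B' : ℤ → ℤ) (s' : ℤ → ℚ) (t : ℤ) (R : ℝ), 3 ≤ t ∧ 0 < R ∧ R ^ 2 = t ^ 2 - 4 ∧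
      P d 0 k 1 0 = A' 0 ∧ P d 0 k 0 1 = - A' (-1) ∧ P d 0 k 0 0 - P d 0 k 1 1 = B' 0 ∧
      (∀ n, A' (n + k) = A' n) ∧ (∀ n, B' (n + k) = B' n) ∧ (∀ n, s' (n + k) = s' n) ∧
      Chain d (fun n => (A' n : ℝ) / R) (fun n => (B' n : ℝ) / R) ∧
      Bds d (fun n => (A' n : ℝ) / R) (fun n => (B' n : ℝ) / R) (fun n => ((s' n : ℚ) : ℝ))
        (1 / (a : ℝ)) := by
  have h24 : ∀ n, 24 ≤ d n := fun n => ha.trans (hda n)
  obtain ⟨A', B', t, ht, e1, e2, e3, pA, pB, cA, cB, hrel, hdisc⟩ := chain_of hk hd h24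
  obtain ⟨s', hs', hseq⟩ := exists_per hk hd (fun n => by linarith [h24 n])
  have htr : (3 : ℝ) ≤ t := by exact_mod_cast ht
  have hD : (0 : ℝ) < (t : ℝ) ^ 2 - 4 := by nlinarith
  have hR : 0 < √((t : ℝ) ^ 2 - 4) := Real.sqrt_pos.2 hD
  have hR2 : √((t : ℝ) ^ 2 - 4) ^ 2 = (t : ℝ) ^ 2 - 4 := Real.sq_sqrt hD.le
  generalize √((t : ℝ) ^ 2 - 4) = R at hR hR2
  have hch : Chain d (fun n => (A' n : ℝ) / R) (fun n => (B' n : ℝ) / R) := by
    refine ⟨fun n => ?_, fun n => ?_, fun n => ?_, fun n => ?_⟩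
    · have : (0 : ℝ) < A' n := by exact_mod_cast pA n
      positivity
    · have : (0 : ℝ) < B' n := by exact_mod_cast pB n
      positivity
    · have : (B' n : ℝ) + B' (n + 1) = 2 * d n * A' n := by exact_mod_cast hrel n
      change (B' n : ℝ) / R + B' (n + 1) / R = 2 * d n * (A' n / R)
      rw [← add_div, this]
      ring
    · have : (B' n : ℝ) ^ 2 - 4 * A' n * A' (n - 1) = (t : ℝ) ^ 2 - 4 := by exact_mod_cast hdisc n
      change ((B' n : ℝ) / R) ^ 2 - 4 * (A' n / R) * (A' (n - 1) / R) = 1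
      have e : ((B' n : ℝ) / R) ^ 2 - 4 * (A' n / R) * (A' (n - 1) / R) =
          ((B' n : ℝ) ^ 2 - 4 * A' n * A' (n - 1)) / R ^ 2 := by
        field_simp
      rw [e, this, hR2, div_self hD.ne']
  refine ⟨A', B', s', t, R, ht, hR, hR2, e1, e2, e3, cA, cB, hs', hch, ?_⟩
  refine bds_of hch hk (fun n => ?_) (fun n => ?_) (fun n => ?_) (a := (a : ℝ)) (b := (b : ℝ))
    (fun n => ?_) (fun n => ?_) ?_ ?_
  · simp only [cA n]
  · simp only [hs' n]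
  · have := hseq n
    change (d n : ℝ) * ((s' n : ℚ) : ℝ) + ((s' (n + 1) : ℚ) : ℝ) + ((s' (n - 1) : ℚ) : ℝ) = 1
    exact_mod_cast this
  · exact_mod_cast hda n
  · exact_mod_cast hdb n
  · exact_mod_cast ha
  · exact_mod_cast hab

/-- rational version of the sign -/
theorem sg_rat (n : ℤ) : ∃ r : ℚ, sg n = r := by
  rcases sg_or n with h | h
  · exact ⟨1, by rw [h]; norm_num⟩
  · exact ⟨-1, by rw [h]; norm_num⟩

theorem tau_rat (s' : ℤ → ℚ) (σ : ℚ) (n : ℤ) :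
    ∃ r : ℚ, tau (fun n => ((s' n : ℚ) : ℝ)) σ n = r := by
  obtain ⟨r, hr⟩ := sg_rat n
  refine ⟨r * (σ * s' n), ?_⟩
  unfold tau
  rw [hr]
  push_cast
  ring

theorem pt_rat (s' : ℤ → ℚ) (σ : ℚ) :
    ∃ p : ℚ × ℚ, pt (fun n => ((s' n : ℚ) : ℝ)) σ = ((p.1 : ℝ), (p.2 : ℝ)) := by
  obtain ⟨r, hr⟩ := tau_rat s' σ (-1)
  obtain ⟨r', hr'⟩ := tau_rat s' σ 0
  refine ⟨(1 / 2 + r, 1 / 2 + r'), ?_⟩
  unfold pt
  rw [hr, hr']
  push_cast
  rfl

theorem V_rat (A' B' : ℤ → ℤ) (s' : ℤ → ℚ) (R : ℝ) (σ : ℚ) (n : ℤ) :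
    (∃ r : ℚ, Vp (fun n => (A' n : ℝ) / R) (fun n => (B' n : ℝ) / R)
      (fun n => ((s' n : ℚ) : ℝ)) σ n = r / R) ∧
    (∃ r : ℚ, Vm (fun n => (A' n : ℝ) / R) (fun n => (B' n : ℝ) / R)
      (fun n => ((s' n : ℚ) : ℝ)) σ n = r / R) := by
  obtain ⟨r, hr⟩ := tau_rat s' σ (n - 1)
  obtain ⟨r', hr'⟩ := tau_rat s' σ n
  constructor
  · refine ⟨- (A' n * (1 / 2 + r) ^ 2 - B' n * ((1 / 2 + r) * (1 / 2 + r')) +
      A' (n - 1) * (1 / 2 + r') ^ 2), ?_⟩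
    unfold Vp q
    rw [hr, hr']
    push_cast
    ring
  · refine ⟨- (A' n * (1 / 2 - r) ^ 2 - B' n * ((1 / 2 - r) * (1 / 2 - r')) +
      A' (n - 1) * (1 / 2 - r') ^ 2), ?_⟩
    unfold Vm q
    rw [hr, hr']
    push_cast
    ring

/-- the corner values are periodic with twice the period -/
theorem V_per {k : ℕ} {A B s : ℤ → ℝ} (hA : ∀ n, A (n + k) = A n) (hB : ∀ n, B (n + k) = B n)
    (hs : ∀ n, s (n + k) = s n) (σ : ℝ) (n : ℤ) :
    min (Vp A B s σ (n + (2 * k : ℕ))) (Vm A B s σ (n + (2 * k : ℕ))) =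
      min (Vp A B s σ n) (Vm A B s σ n) := by
  have e : n + ((2 * k : ℕ) : ℤ) = n + k + k := by push_cast; ring
  have e1 : n + k + k - 1 = n - 1 + k + k := by ring
  have hsg : ∀ m : ℤ, sg (m + k + k) = sg m := by
    intro m
    unfold sg
    have : Even (m + k + k) ↔ Even m := by
      rw [add_assoc]
      constructor
      · intro h
        have h2 : Even ((k : ℤ) + k) := ⟨k, rfl⟩
        exact (Int.even_add.1 h).2 h2
      · intro h
        exact h.add ⟨k, rfl⟩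
    simp only [this]
  have ht : ∀ m : ℤ, tau s σ (m + k + k) = tau s σ m := by
    intro m
    unfold tau
    rw [hsg, hs, hs]
  rw [e]
  unfold Vp Vm q
  rw [e1, ht, ht, hA, hA, hA, hA, hB, hB]

/-- transfer of the infimum to an equivalent form -/
theorem transfer {A B : ℤ → ℝ} {a b c κ : ℝ} (hκ : 0 ≤ κ) {e f g h : ℤ}
    (hU : e * h - f * g = 1 ∨ e * h - f * g = -1)
    (hQ : ∀ u v : ℝ, |a * u ^ 2 + b * u * v + c * v ^ 2| =
      κ * |q A B 0 (e * u + f * v) (g * u + h * v)|) (x : ℝ × ℝ) :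
    (⨅ z : ℤ × ℤ, |a * (x.1 + (z.1 : ℝ)) ^ 2 + b * (x.1 + (z.1 : ℝ)) * (x.2 + (z.2 : ℝ))
      + c * (x.2 + (z.2 : ℝ)) ^ 2|) = κ * mu A B (e * x.1 + f * x.2, g * x.1 + h * x.2) := by
  have hsurj : Function.Surjective
      (fun z : ℤ × ℤ => ((e * z.1 + f * z.2, g * z.1 + h * z.2) : ℤ × ℤ)) := by
    rintro ⟨u, v⟩
    rcases hU with hU | hU
    · refine ⟨(h * u - f * v, - g * u + e * v), ?_⟩
      ext
      · change e * (h * u - f * v) + f * (- g * u + e * v) = u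
        linear_combination u * hU
      · change g * (h * u - f * v) + h * (- g * u + e * v) = v
        linear_combination v * hU
    · refine ⟨(-(h * u - f * v), -(- g * u + e * v)), ?_⟩
      ext
      · change e * (-(h * u - f * v)) + f * (-(- g * u + e * v)) = u
        linear_combination -u * hU
      · change g * (-(h * u - f * v)) + h * (-(- g * u + e * v)) = v
        linear_combination -v * hU
  unfold mu
  have hre := hsurj.iInf_comp (fun w : ℤ × ℤ => κ * |q A B 0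
    (((e * x.1 + f * x.2, g * x.1 + h * x.2) : ℝ × ℝ).1 + (w.1 : ℝ))
    (((e * x.1 + f * x.2, g * x.1 + h * x.2) : ℝ × ℝ).2 + (w.2 : ℝ))|)
  rw [Real.mul_iInf_of_nonneg hκ, ← hre]
  congr 1
  funext z
  rw [hQ]
  congr 3
  · push_cast; ring
  · push_cast; ring

end Pool.Agent.H93.BSD
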