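import Pool.Agent.H93.BSD.Orb

/-!
# Chains of neighbouring forms

`q A B n x y = A n x^2 - B n x y + A (n-1) y^2`; along a solution `z` of the recurrence the value
`q A B n (z (n-1)) (z n)` does not depend on `n`.
-/

namespace Pool.Agent.H93.BSD

/-- the `n`-th form of the chain -/
def q (A B : ℤ → ℝ) (n : ℤ) (x y : ℝ) : ℝ := A n * x ^ 2 - B n * (x * y) + A (n - 1) * y ^ 2

/-- a chain of neighbouring forms of discriminant one -/
structure Chain (d : ℤ → ℤ) (A B : ℤ → ℝ) : Prop where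
  posA : ∀ n, 0 < A n
  posB : ∀ n, 0 < B n
  rel : ∀ n, B n + B (n + 1) = 2 * d n * A n
  disc : ∀ n, B n ^ 2 - 4 * A n * A (n - 1) = 1

variable {d : ℤ → ℤ} {A B : ℤ → ℝ}

theorem Chain.next (h : Chain d A B) (n : ℤ) :
    A (n + 1) = (d n : ℝ) ^ 2 * A n - d n * B n + A (n - 1) := by
  have h1 := h.disc n
  have h2 := h.disc (n + 1)
  have e : n + 1 - 1 = n := by ring
  rw [e] at h2
  have h3 := h.rel n
  have h4 : B (n + 1) = 2 * d n * A n - B n := by linarith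
  rw [h4] at h2
  have hA := h.posA n
  have h5 : A n * (A (n + 1) - ((d n : ℝ) ^ 2 * A n - d n * B n + A (n - 1))) = 0 := by
    linarith
  rcases mul_eq_zero.1 h5 with h6 | h6
  · exact absurd h6 hA.ne'
  · linarith

theorem Chain.q_next (h : Chain d A B) (n : ℤ) (x y : ℝ) :
    q A B (n + 1) y (d n * y - x) = q A B n x y := by
  unfold q
  have e : n + 1 - 1 = n := by ring
  rw [e, h.next n]
  have h4 : B (n + 1) = 2 * d n * A n - B n := by linarith [h.rel n]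
  rw [h4]
  ring

theorem Chain.q_const (h : Chain d A B) {z : ℤ → ℝ} (hz : IsSol d z) (m n : ℤ) :
    q A B n (z (n - 1)) (z n) = q A B m (z (m - 1)) (z m) := by
  revert n
  refine two_sided m rfl ?_ ?_
  · intro n hn
    have h1 := h.q_next n (z (n - 1)) (z n)
    rw [← hz n] at h1
    have e : n + 1 - 1 = n := by ring
    rw [e, h1, hn]
  · intro n hn
    have h1 := h.q_next (n - 1) (z (n - 1 - 1)) (z (n - 1))
    rw [← hz (n - 1)] at h1
    have e : n - 1 + 1 = n := by ring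
    rw [e] at h1
    rw [← h1, hn]

/-- the inhomogeneous minimum at `p` of the form of index `0` -/
noncomputable def mu (A B : ℤ → ℝ) (p : ℝ × ℝ) : ℝ :=
  ⨅ z : ℤ × ℤ, |q A B 0 (p.1 + (z.1 : ℝ)) (p.2 + (z.2 : ℝ))|

theorem mu_le (p : ℝ × ℝ) (i j : ℤ) : mu A B p ≤ |q A B 0 (p.1 + i) (p.2 + j)| := by
  refine ciInf_le ?_ ((i, j) : ℤ × ℤ)
  exact ⟨0, by rintro _ ⟨z, rfl⟩; exact abs_nonneg _⟩

theorem le_mu (p : ℝ × ℝ) (c : ℝ) (h : ∀ i j : ℤ, c ≤ |q A B 0 (p.1 + i) (p.2 + j)|) :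
    c ≤ mu A B p := le_ciInf fun z => h z.1 z.2

/-- upper bound by values at any index -/
theorem Chain.mu_le_at (h : Chain d A B) {z : ℤ → ℝ} (hz : IsSol d z) (n i j : ℤ) :
    mu A B (z (-1), z 0) ≤ |q A B n (z (n - 1) + i) (z n + j)| := by
  obtain ⟨w, hw, h1, h2⟩ := exists_sol (R := ℤ) d n i j
  have hs := hz.add (hw.cast (R := ℝ))
  have h3 := h.q_const hs 0 n
  simp only [zero_sub] at h3
  rw [h1, h2] at h3
  rw [h3]
  exact mu_le (A := A) (B := B) (z (-1), z 0) (w (-1)) (w 0)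

/-- lower bound from all integral translates of a solution -/
theorem le_mu_sol {z : ℤ → ℝ} (hz : IsSol d z) (c : ℝ)
    (h : ∀ w : ℤ → ℝ, IsSol d w → (∀ n, ∃ i : ℤ, w n = z n + i) →
      c ≤ |q A B 0 (w (-1)) (w 0)|) : c ≤ mu A B (z (-1), z 0) := by
  refine le_mu _ _ fun i j => ?_
  obtain ⟨w, hw, h1, h2⟩ := exists_sol (R := ℤ) d 0 i j
  have hs := hz.add (hw.cast (R := ℝ))
  have h3 := h _ hs fun n => ⟨w n, rfl⟩
  simp only [zero_sub] at h1
  rw [h1, h2] at h3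
  exact h3

end Pool.Agent.H93.BSD
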