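import Pool.Agent.H93.BSD.Form

/-!
# Lower bound for the minimum at points whose coordinates are close to `1/2` modulo `1`
-/

namespace Pool.Agent.H93.BSD

variable {d : ℤ → ℤ} {A B : ℤ → ℝ}

theorem q_neg (n : ℤ) (x y : ℝ) : q A B n (-x) (-y) = q A B n x y := by
  unfold q; ring

theorem q_concave (n : ℤ) (hA : 0 < A n) {c X X0 X1 y : ℝ} (h0 : X0 ≤ X) (h1 : X ≤ X1)
    (f0 : c ≤ - q A B n X0 y) (f1 : c ≤ - q A B n X1 y) : c ≤ - q A B n X y := by
  rcases eq_or_lt_of_le (h0.trans h1) with h | h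
  · have : X = X0 := le_antisymm (h1.trans h.ge) h0
    rw [this]
    exact f0
  · have key : (X1 - X0) * (- q A B n X y - c) = (X1 - X) * (- q A B n X0 y - c) +
        (X - X0) * (- q A B n X1 y - c) + A n * ((X - X0) * (X1 - X) * (X1 - X0)) := by
      unfold q; ring
    have h2 : 0 ≤ (X1 - X0) * (- q A B n X y - c) := by
      rw [key]
      have a1 := mul_nonneg (sub_nonneg.2 h1) (sub_nonneg.2 f0)
      have a2 := mul_nonneg (sub_nonneg.2 h0) (sub_nonneg.2 f1)
      have a3 : 0 ≤ A n * ((X - X0) * (X1 - X) * (X1 - X0)) :=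
        mul_nonneg hA.le (mul_nonneg (mul_nonneg (sub_nonneg.2 h0) (sub_nonneg.2 h1))
          (sub_nonneg.2 h.le))
      linarith
    have h3 : 0 < X1 - X0 := sub_pos.2 h
    have h4 := nonneg_of_mul_nonneg_right h2 h3
    linarith

private theorem big_end (n : ℤ) (hA : 0 < A n) (hA' : 0 < A (n - 1)) (hA1 : A n ≤ 1 / 20)
    (hA1' : A (n - 1) ≤ 1 / 20) (hB : 1 ≤ B n) {j X y : ℝ} (hj : 1 ≤ j) (hX : j ≤ X) (hy : j ≤ y)
    (hX2 : X ≤ 2 * j) (hy2 : y ≤ 2 * j) (hor : X = j ∨ y = j) : 1 / 4 ≤ - q A B n X y := by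
  have hXp : 0 < X := by linarith
  have hyp : 0 < y := by linarith
  have h1 : X * y ≥ j * j := mul_le_mul hX hy (by linarith) hXp.le
  have h0 : 0 < X * y := mul_pos hXp hyp
  have h2 : A n * X ^ 2 + A (n - 1) * y ^ 2 ≤ 1 / 20 * (X ^ 2 + y ^ 2) := by
    nlinarith [sq_nonneg X, sq_nonneg y]
  have h3 : X ^ 2 + y ^ 2 ≤ 3 * (X * y) := by
    rcases hor with h | h
    · subst h
      nlinarith
    · subst h
      nlinarith
  have h4 : X * y ≤ B n * (X * y) := by nlinarith
  unfold q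
  nlinarith

private theorem exists_min_floor (z : ℤ → ℝ) (hpos : ∀ n, 0 < z n) :
    ∃ n, ∀ m, ⌊z n⌋ ≤ ⌊z m⌋ := by
  classical
  have hne : ∃ j : ℕ, ∃ n, (⌊z n⌋).toNat = j := ⟨_, 0, rfl⟩
  obtain ⟨n, hn⟩ := Nat.find_spec hne
  refine ⟨n, fun m => ?_⟩
  have h1 := Nat.find_min' hne ⟨m, rfl⟩
  rw [← hn] at h1
  have h2 : 0 ≤ ⌊z n⌋ := Int.floor_nonneg.2 (hpos n).le
  have h3 : 0 ≤ ⌊z m⌋ := Int.floor_nonneg.2 (hpos m).le
  omega

theorem lower_pos (h : Chain d A B) {z : ℤ → ℝ} (hz : IsSol d z) (τ : ℤ → ℝ)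
    (hτ : ∀ n, |τ n| < 1 / 2) (hzτ : ∀ n, ∃ i : ℤ, z n = 1 / 2 + τ n + i)
    (hpos : ∀ n, 0 < z n) (c : ℝ) (hc : c ≤ 1 / 4)
    (hA : ∀ n, A n ≤ 1 / 20) (hB : ∀ n, 1 ≤ B n)
    (hW1 : ∀ n, c ≤ - q A B n (1 / 2 + τ (n - 1)) (1 / 2 + τ n)) :
    ∃ n, c ≤ - q A B n (z (n - 1)) (z n) := by
  obtain ⟨n, hn⟩ := exists_min_floor z hpos
  refine ⟨n, ?_⟩
  have hz1 : z (n + 1) = d n * z n - z (n - 1) := hz n
  have hz2 : z (n - 1) = d n * z n - z (n + 1) := by linarith
  have e : n + 1 - 1 = n := by ring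
  have hnn : 0 ≤ ⌊z n⌋ := Int.floor_nonneg.2 (hpos n).le
  rcases eq_or_lt_of_le hnn with h0 | h0
  · -- `z n < 1`
    have hlt : z n < 1 := by
      have := Int.lt_floor_add_one (z n)
      rw [← h0] at this
      simpa using this
    have hyn : z n = 1 / 2 + τ n := by
      obtain ⟨i, hi⟩ := hzτ n
      have h1 := hτ n
      rw [abs_lt] at h1
      have h2 := hpos n
      have h3 : (i : ℝ) < 1 := by linarith
      have h4 : (-1 : ℝ) < i := by linarith
      have h3' : i < 1 := by exact_mod_cast h3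
      have h4' : -1 < i := by exact_mod_cast h4
      have h5 : i = 0 := by omega
      rw [hi, h5]; simp
    have hge : ∀ m, 1 / 2 + τ m ≤ z m := by
      intro m
      obtain ⟨i, hi⟩ := hzτ m
      have h1 := hτ m
      rw [abs_lt] at h1
      have h2 := hpos m
      have h4 : (-1 : ℝ) < i := by linarith
      have h4' : -1 < i := by exact_mod_cast h4
      have h5 : (0 : ℝ) ≤ i := by exact_mod_cast (by omega : 0 ≤ i)
      linarith
    refine q_concave n (h.posA n) (hge (n - 1))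
      (X1 := d n * z n - (1 / 2 + τ (n + 1))) ?_ ?_ ?_
    · have := hge (n + 1)
      linarith
    · rw [hyn]
      exact hW1 n
    · have h1 := h.q_next n (d n * z n - (1 / 2 + τ (n + 1))) (z n)
      rw [← h1]
      have e2 : (d n : ℝ) * z n - (d n * z n - (1 / 2 + τ (n + 1))) = 1 / 2 + τ (n + 1) := by ring
      rw [e2, hyn]
      have := hW1 (n + 1)
      rw [e] at this
      exact this
  · -- all values at least `1`
    have hj : (1 : ℝ) ≤ (⌊z n⌋ : ℝ) := by exact_mod_cast h0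
    have hge : ∀ m, (⌊z n⌋ : ℝ) ≤ z m := by
      intro m
      have h1 : ((⌊z n⌋ : ℤ) : ℝ) ≤ (⌊z m⌋ : ℝ) := by exact_mod_cast hn m
      exact h1.trans (Int.floor_le _)
    have hy2 : z n ≤ 2 * (⌊z n⌋ : ℝ) := by
      have := Int.lt_floor_add_one (z n)
      linarith
    refine q_concave n (h.posA n) (hge (n - 1)) (X1 := d n * z n - (⌊z n⌋ : ℝ)) ?_ ?_ ?_
    · have := hge (n + 1)
      linarith
    · refine hc.trans (big_end n (h.posA n) (h.posA _) (hA n) (hA _) (hB n) hj le_rfl (hge n)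
        (by linarith) hy2 (Or.inl rfl))
    · have h1 := h.q_next n (d n * z n - (⌊z n⌋ : ℝ)) (z n)
      rw [← h1]
      have e2 : (d n : ℝ) * z n - (d n * z n - (⌊z n⌋ : ℝ)) = (⌊z n⌋ : ℝ) := by ring
      rw [e2]
      refine hc.trans (big_end (n + 1) (h.posA _) (h.posA _) (hA _) (hA _) (hB _) hj (hge n) le_rfl
        hy2 (by linarith) (Or.inr rfl))

theorem lower (h : Chain d A B) {z : ℤ → ℝ} (hz : IsSol d z) (τ : ℤ → ℝ)
    (hτ : ∀ n, |τ n| < 1 / 2) (hzτ : ∀ n, ∃ i : ℤ, z n = 1 / 2 + τ n + i)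
    (c : ℝ) (hc : c ≤ 1 / 4) (hA : ∀ n, A n ≤ 1 / 20) (hB : ∀ n, 1 ≤ B n)
    (hW1 : ∀ n, c ≤ - q A B n (1 / 2 + τ (n - 1)) (1 / 2 + τ n))
    (hW2 : ∀ n, c ≤ - q A B n (1 / 2 - τ (n - 1)) (1 / 2 - τ n))
    (hU : ∀ n, c ≤ A n * (1 / 2 - |τ (n - 1)|) ^ 2 +
      B n * ((1 / 2 - |τ (n - 1)|) * (1 / 2 - |τ n|)) + A (n - 1) * (1 / 2 - |τ n|) ^ 2) :
    c ≤ |q A B 0 (z (-1)) (z 0)| := by
  have hconst : ∀ n, q A B 0 (z (-1)) (z 0) = q A B n (z (n - 1)) (z n) := by
    intro n
    have h3 := h.q_const hz 0 n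
    simp only [zero_sub] at h3
    exact h3.symm
  have habs : ∀ n, 1 / 2 - |τ n| ≤ |z n| := by
    intro n
    obtain ⟨i, hi⟩ := hzτ n
    have h1 := hτ n
    rcases le_or_gt 0 i with h2 | h2
    · have h3 : (0 : ℝ) ≤ i := by exact_mod_cast h2
      have h4 := neg_abs_le (τ n)
      exact le_trans (by linarith) (le_abs_self (z n))
    · have h3 : (i : ℝ) ≤ -1 := by exact_mod_cast (by omega : i ≤ -1)
      have h4 := le_abs_self (τ n)
      exact le_trans (by linarith) (neg_le_abs (z n))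
  by_cases hex : ∃ n, z (n - 1) * z n ≤ 0
  · obtain ⟨n, hn⟩ := hex
    rw [hconst n]
    refine le_trans ?_ (le_abs_self _)
    refine (hU n).trans ?_
    have a1 : 0 < 1 / 2 - |τ (n - 1)| := by linarith [hτ (n - 1)]
    have a2 : 0 < 1 / 2 - |τ n| := by linarith [hτ n]
    have b1 := habs (n - 1)
    have b2 := habs n
    have c1 : (1 / 2 - |τ (n - 1)|) ^ 2 ≤ z (n - 1) ^ 2 := by
      rw [← sq_abs (z (n - 1))]
      exact pow_le_pow_left₀ a1.le b1 2
    have c2 : (1 / 2 - |τ n|) ^ 2 ≤ z n ^ 2 := by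
      rw [← sq_abs (z n)]
      exact pow_le_pow_left₀ a2.le b2 2
    have c3 : (1 / 2 - |τ (n - 1)|) * (1 / 2 - |τ n|) ≤ - (z (n - 1) * z n) := by
      rw [← abs_of_nonpos hn, abs_mul]
      exact mul_le_mul b1 b2 a2.le (abs_nonneg _)
    have d1 := mul_le_mul_of_nonneg_left c1 (h.posA n).le
    have d2 := mul_le_mul_of_nonneg_left c2 (h.posA (n - 1)).le
    have d3 := mul_le_mul_of_nonneg_left c3 (h.posB n).le
    unfold q
    linarith
  · push Not at hex
    have hne : ∀ n, z n ≠ 0 := by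
      intro n h0
      have := hex n
      rw [h0, mul_zero] at this
      exact lt_irrefl _ this
    rcases lt_or_gt_of_ne (hne 0) with h0 | h0
    · -- all negative
      have hneg : ∀ n, z n < 0 := by
        refine two_sided 0 h0 ?_ ?_
        · intro n hn
          have h1 := hex (n + 1)
          have e : n + 1 - 1 = n := by ring
          rw [e] at h1
          by_contra hcon
          push Not at hcon
          nlinarith
        · intro n hn
          have h1 := hex n
          by_contra hcon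
          push Not at hcon
          nlinarith
      obtain ⟨n, hn⟩ := lower_pos h hz.neg (fun n => - τ n) (fun n => by rw [abs_neg]; exact hτ n)
        (fun n => by
          obtain ⟨i, hi⟩ := hzτ n
          refine ⟨-i - 1, ?_⟩
          rw [hi]
          push_cast
          ring) (fun n => by
          have := hneg n
          change 0 < - z n
          linarith) c hc hA hB (fun n => by
          have := hW2 n
          rw [sub_eq_add_neg, sub_eq_add_neg] at this
          exact this)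
      rw [q_neg] at hn
      rw [hconst n]
      exact hn.trans (neg_le_abs _)
    · have hpos : ∀ n, 0 < z n := by
        refine two_sided 0 h0 ?_ ?_
        · intro n hn
          have h1 := hex (n + 1)
          have e : n + 1 - 1 = n := by ring
          rw [e] at h1
          by_contra hcon
          push Not at hcon
          nlinarith
        · intro n hn
          have h1 := hex n
          by_contra hcon
          push Not at hcon
          nlinarith
      obtain ⟨n, hn⟩ := lower_pos h hz τ hτ hzτ hpos c hc hA hB hW1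
      rw [hconst n]
      exact hn.trans (neg_le_abs _)

end Pool.Agent.H93.BSD
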