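import Mathlib

/-!
# Two-sided linear recurrences `z (n+1) = d n * z n - z (n-1)`
-/

namespace Pool.Agent.H93.BSD

/-- two-sided solution of the recurrence `z (n+1) = d n * z n - z (n-1)` -/
def IsSol {R : Type} [CommRing R] (d : ℤ → ℤ) (z : ℤ → R) : Prop :=
  ∀ n, z (n + 1) = (d n : R) * z n - z (n - 1)

section
variable {R : Type} [CommRing R] {d : ℤ → ℤ} {z w : ℤ → R}

/-- forward part of the solution -/
private def orbF (d : ℤ → ℤ) (x y : R) : ℕ → R × R
  | 0 => (x, y)
  | m + 1 => ((orbF d x y m).2, (d m : R) * (orbF d x y m).2 - (orbF d x y m).1)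

/-- backward part of the solution -/
private def orbB (d : ℤ → ℤ) (x y : R) : ℕ → R × R
  | 0 => (x, y)
  | m + 1 => ((d (-(m : ℤ) - 1) : R) * (orbB d x y m).1 - (orbB d x y m).2, (orbB d x y m).1)

/-- the two-sided solution with `z (-1) = x`, `z 0 = y` -/
private def orbZ (d : ℤ → ℤ) (x y : R) : ℤ → R
  | Int.ofNat m => (orbF d x y m).2
  | Int.negSucc m => (orbB d x y (m + 1)).2

private theorem orbF_fst (d : ℤ → ℤ) (x y : R) (m : ℕ) :
    (orbF d x y (m + 1)).1 = (orbF d x y m).2 := rfl

private theorem orbB_snd (d : ℤ → ℤ) (x y : R) (m : ℕ) :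
    (orbB d x y (m + 1)).2 = (orbB d x y m).1 := rfl

private theorem orbZ_isSol (d : ℤ → ℤ) (x y : R) : IsSol d (orbZ d x y) := by
  intro n
  rcases n with m | m
  · rcases m with _ | m
    · change (orbF d x y 1).2 = (d 0 : R) * (orbF d x y 0).2 - (orbB d x y 1).2
      simp [orbF, orbB]
    · have h1 : (Int.ofNat (m + 1) + 1 : ℤ) = Int.ofNat (m + 2) := by
        simp only [Int.ofNat_eq_natCast]; push_cast; ring
      have h2 : (Int.ofNat (m + 1) - 1 : ℤ) = Int.ofNat m := by
        simp only [Int.ofNat_eq_natCast]; push_cast; ring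
      rw [h1, h2]
      change (orbF d x y (m + 2)).2 = (d ((m + 1 : ℕ) : ℤ) : R) * (orbF d x y (m + 1)).2 -
        (orbF d x y m).2
      rw [← orbF_fst d x y m]
      rfl
  · rcases m with _ | m
    · change (orbF d x y 0).2 = (d (-1) : R) * (orbB d x y 1).2 - (orbB d x y 2).2
      simp [orbF, orbB]
    · have h1 : (Int.negSucc (m + 1) + 1 : ℤ) = Int.negSucc m := by
        simp only [Int.negSucc_eq]; push_cast; ring
      have h2 : (Int.negSucc (m + 1) - 1 : ℤ) = Int.negSucc (m + 2) := by
        simp only [Int.negSucc_eq]; push_cast; ring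
      rw [h1, h2]
      change (orbB d x y (m + 1)).2 = (d (Int.negSucc (m + 1)) : R) * (orbB d x y (m + 2)).2 -
        (orbB d x y (m + 3)).2
      have h3 : (Int.negSucc (m + 1) : ℤ) = -((m + 1 : ℕ) : ℤ) - 1 := by
        simp only [Int.negSucc_eq]
        ring
      rw [orbB_snd d x y (m + 2), h3]
      change _ = _ - ((d (-((m + 1 : ℕ) : ℤ) - 1) : R) * (orbB d x y (m + 1)).1 -
        (orbB d x y (m + 1)).2)
      rw [orbB_snd d x y (m + 1)]
      ring

/-- existence of the two-sided solution with prescribed values at `m - 1` and `m` -/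
theorem exists_sol (d : ℤ → ℤ) (m : ℤ) (x y : R) :
    ∃ z : ℤ → R, IsSol d z ∧ z (m - 1) = x ∧ z m = y := by
  refine ⟨fun n => orbZ (fun i => d (i + m)) x y (n - m), ?_, ?_, ?_⟩
  · intro n
    have h := orbZ_isSol (R := R) (fun i => d (i + m)) x y (n - m)
    have e1 : n + 1 - m = n - m + 1 := by ring
    have e2 : n - 1 - m = n - m - 1 := by ring
    have e3 : n - m + m = n := by ring
    simp only [e3] at h
    simp only [e1, e2]
    exact h
  · have e : m - 1 - m = Int.negSucc 0 := by
      rw [Int.negSucc_eq]; push_cast; ring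
    change orbZ _ x y (m - 1 - m) = x
    rw [e]
    simp [orbZ, orbB]
  · have e : m - m = Int.ofNat 0 := by simp
    change orbZ _ x y (m - m) = y
    rw [e]
    simp [orbZ, orbF]

theorem IsSol.add (hz : IsSol d z) (hw : IsSol d w) : IsSol d (fun n => z n + w n) := by
  intro n
  change z (n + 1) + w (n + 1) = _
  rw [hz n, hw n]
  ring

theorem IsSol.sub (hz : IsSol d z) (hw : IsSol d w) : IsSol d (fun n => z n - w n) := by
  intro n
  change z (n + 1) - w (n + 1) = _
  rw [hz n, hw n]
  ring

theorem IsSol.neg (hz : IsSol d z) : IsSol d (fun n => - z n) := by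
  intro n
  change - z (n + 1) = _
  rw [hz n]
  ring

theorem IsSol.cast {w : ℤ → ℤ} (hw : IsSol d w) : IsSol d (fun n => ((w n : ℤ) : R)) := by
  intro n
  change ((w (n + 1) : ℤ) : R) = _
  rw [hw n]
  push_cast
  ring

/-- a property of pairs `(z (n-1), z n)` invariant in both directions -/
theorem two_sided {p : ℤ → Prop} (m : ℤ) (h0 : p m) (h1 : ∀ n, p n → p (n + 1))
    (h2 : ∀ n, p n → p (n - 1)) (n : ℤ) : p n := by
  have key : ∀ j : ℕ, p (m + j) ∧ p (m - j) := by
    intro j
    induction j with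
    | zero => simpa using h0
    | succ j ih =>
      refine ⟨?_, ?_⟩
      · have := h1 _ ih.1
        have e : m + ((j + 1 : ℕ) : ℤ) = m + j + 1 := by push_cast; ring
        rw [e]
        exact this
      · have := h2 _ ih.2
        have e : m - ((j + 1 : ℕ) : ℤ) = m - j - 1 := by push_cast; ring
        rw [e]
        exact this
  rcases le_total m n with h | h
  · have e : n = m + ((n - m).toNat : ℤ) := by
      rw [Int.toNat_of_nonneg (by linarith)]; ring
    rw [e]
    exact (key _).1
  · have e : n = m - ((m - n).toNat : ℤ) := by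
      rw [Int.toNat_of_nonneg (by linarith)]; ring
    rw [e]
    exact (key _).2

theorem sol_unique (hz : IsSol d z) (hw : IsSol d w) (m : ℤ) (h1 : z (m - 1) = w (m - 1))
    (h2 : z m = w m) : z = w := by
  have key : ∀ n, z (n - 1) = w (n - 1) ∧ z n = w n := by
    refine two_sided m ⟨h1, h2⟩ ?_ ?_
    · rintro n ⟨a, b⟩
      refine ⟨by simpa using b, ?_⟩
      rw [hz n, hw n, a, b]
    · rintro n ⟨a, b⟩
      refine ⟨?_, a⟩
      have e1 := hz (n - 1)
      have e2 := hw (n - 1)
      have e3 : n - 1 + 1 = n := by ring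
      rw [e3] at e1 e2
      have : z (n - 1 - 1) = (d (n - 1) : R) * z (n - 1) - z n := by rw [e1]; ring
      rw [this, a, b, e2]
      ring
  funext n
  exact (key n).2

end

/-- a bounded real solution is zero if all digits are at least `3` -/
theorem bounded_zero {d : ℤ → ℤ} {e : ℤ → ℝ} (hd : ∀ n, 3 ≤ d n) (C : ℝ)
    (he : ∀ n, (d n : ℝ) * e n = e (n + 1) + e (n - 1)) (hC : ∀ n, |e n| ≤ C) (n : ℤ) :
    e n = 0 := by
  have key : ∀ j : ℕ, ∀ n, |e n| ≤ C * (2 / 3) ^ j := by
    intro j
    induction j with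
    | zero => simpa using hC
    | succ j ih =>
      intro n
      have h1 : (3 : ℝ) * |e n| ≤ 2 * (C * (2 / 3) ^ j) := by
        have hd' : (3 : ℝ) ≤ d n := by exact_mod_cast hd n
        calc (3 : ℝ) * |e n| ≤ (d n : ℝ) * |e n| :=
              mul_le_mul_of_nonneg_right hd' (abs_nonneg _)
          _ = |(d n : ℝ) * e n| := by
              rw [abs_mul, abs_of_nonneg (by linarith : (0 : ℝ) ≤ d n)]
          _ = |e (n + 1) + e (n - 1)| := by rw [he n]
          _ ≤ |e (n + 1)| + |e (n - 1)| := abs_add_le _ _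
          _ ≤ _ := by linarith [ih (n + 1), ih (n - 1)]
      calc |e n| ≤ (2 * (C * (2 / 3) ^ j)) / 3 := by linarith
        _ = _ := by rw [pow_succ]; ring
  have hlim : Filter.Tendsto (fun j : ℕ => C * (2 / 3 : ℝ) ^ j) Filter.atTop (nhds (C * 0)) :=
    (tendsto_pow_atTop_nhds_zero_of_lt_one (by norm_num) (by norm_num)).const_mul C
  rw [mul_zero] at hlim
  have h0 : |e n| ≤ 0 := ge_of_tendsto' hlim fun j => key j n
  exact abs_eq_zero.1 (le_antisymm h0 (abs_nonneg _))

end Pool.Agent.H93.BSD
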