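import Pool.Agent.H93.BSD.Low

/-!
# The special points
-/

namespace Pool.Agent.H93.BSD

/-- the sign `(-1)^n` -/
def sg (n : ℤ) : ℝ := if Even n then 1 else -1

theorem sg_succ (n : ℤ) : sg (n + 1) = - sg n := by
  unfold sg
  by_cases h : Even n
  · have h2 : ¬ Even (n + 1) := by
      rw [Int.even_add_one]; exact not_not_intro h
    rw [if_pos h, if_neg h2]
  · have h2 : Even (n + 1) := by
      rw [Int.even_add_one]; exact h
    rw [if_neg h, if_pos h2, neg_neg]

theorem sg_pred (n : ℤ) : sg (n - 1) = - sg n := by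
  have h := sg_succ (n - 1)
  have e : n - 1 + 1 = n := by ring
  rw [e] at h
  rw [h, neg_neg]

theorem sg_or (n : ℤ) : sg n = 1 ∨ sg n = -1 := by
  unfold sg
  split_ifs
  · exact Or.inl rfl
  · exact Or.inr rfl

theorem sg_abs (n : ℤ) : |sg n| = 1 := by
  rcases sg_or n with h | h <;> rw [h] <;> simp

theorem sg_sq (n : ℤ) : sg n * sg n = 1 := by
  rcases sg_or n with h | h <;> rw [h] <;> norm_num

/-- uniform bounds for a chain with nearly constant digits; `x` is the inverse of the smallest digit -/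
structure Bds (d : ℤ → ℤ) (A B s : ℤ → ℝ) (x : ℝ) : Prop where
  hx : 0 < x
  hx1 : x ≤ 1 / 24
  dlo : ∀ n, 1 ≤ d n * x
  dhi : ∀ n, d n * x ≤ 5 / 4
  Alo : ∀ n, 4 / 5 * x ≤ A n
  Ahi : ∀ n, A n ≤ 251 / 250 * x
  Blo : ∀ n, 1 ≤ B n
  Bhi : ∀ n, B n ≤ 1 + 21 / 10 * x ^ 2
  seq : ∀ n, d n * s n + s (n + 1) + s (n - 1) = 1
  slo : ∀ n, 4 / 5 * x * (1 - 2 * x) ≤ s n
  shi : ∀ n, s n ≤ x * (1 - 8 / 5 * x * (1 - 2 * x))

variable {d : ℤ → ℤ} {A B s : ℤ → ℝ} {x : ℝ}

theorem Bds.spos (b : Bds d A B s x) (n : ℤ) : 0 < s n := by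
  have h1 := b.slo n
  have h2 := b.hx
  have h3 := b.hx1
  have : 0 < 4 / 5 * x * (1 - 2 * x) := by
    apply mul_pos <;> linarith
  linarith

theorem Bds.sx (b : Bds d A B s x) (n : ℤ) : s n ≤ x := by
  have h1 := b.shi n
  have h2 := b.hx
  have h3 := b.hx1
  have : 0 ≤ 8 / 5 * x * (1 - 2 * x) := by
    apply mul_nonneg <;> linarith
  nlinarith

/-- the displacement at index `n` of the special point with parameter `σ` -/
noncomputable def tau (s : ℤ → ℝ) (σ : ℝ) (n : ℤ) : ℝ := sg n * (σ * s n)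

theorem tau_abs (b : Bds d A B s x) {σ : ℝ} (hσ : 0 ≤ σ) (n : ℤ) : |tau s σ n| = σ * s n := by
  unfold tau
  rw [abs_mul, sg_abs, one_mul, abs_of_nonneg (mul_nonneg hσ (b.spos n).le)]

theorem tau_rec (b : Bds d A B s x) (σ : ℝ) (n : ℤ) :
    d n * tau s σ n - tau s σ (n + 1) - tau s σ (n - 1) = sg n * σ := by
  unfold tau
  rw [sg_succ, sg_pred]
  have := b.seq n
  have h2 : sg n * σ * (d n * s n + s (n + 1) + s (n - 1)) = sg n * σ := by rw [this, mul_one]
  linarith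

/-- the special point -/
noncomputable def pt (s : ℤ → ℝ) (σ : ℝ) : ℝ × ℝ := (1 / 2 + tau s σ (-1), 1 / 2 + tau s σ 0)

/-- corner values -/
noncomputable def Vp (A B s : ℤ → ℝ) (σ : ℝ) (n : ℤ) : ℝ :=
  - q A B n (1 / 2 + tau s σ (n - 1)) (1 / 2 + tau s σ n)

/-- corner values -/
noncomputable def Vm (A B s : ℤ → ℝ) (σ : ℝ) (n : ℤ) : ℝ :=
  - q A B n (1 / 2 - tau s σ (n - 1)) (1 / 2 - tau s σ n)

/-- if `z` agrees modulo `1` with `1/2 + tau` at two consecutive places then everywhere -/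
theorem pt_congr (b : Bds d A B s x) {σ : ℝ}
    (hpar : ∀ n, ∃ m : ℤ, (d n : ℝ) / 2 + sg n * σ = m) {z : ℤ → ℝ} (hz : IsSol d z) (m : ℤ)
    (h1 : ∃ i : ℤ, z (m - 1) = 1 / 2 + tau s σ (m - 1) + i)
    (h2 : ∃ i : ℤ, z m = 1 / 2 + tau s σ m + i) (n : ℤ) :
    ∃ i : ℤ, z n = 1 / 2 + tau s σ n + i := by
  have key : ∀ n, (∃ i : ℤ, z (n - 1) = 1 / 2 + tau s σ (n - 1) + i) ∧
      ∃ i : ℤ, z n = 1 / 2 + tau s σ n + i := by
    refine two_sided m ⟨h1, h2⟩ ?_ ?_
    · rintro n ⟨⟨i, hi⟩, ⟨j, hj⟩⟩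
      refine ⟨⟨j, by simpa using hj⟩, ?_⟩
      obtain ⟨m, hm⟩ := hpar n
      refine ⟨m - 1 + d n * j - i, ?_⟩
      rw [hz n, hi, hj]
      have h3 := tau_rec b σ n
      push_cast
      linarith
    · rintro n ⟨⟨i, hi⟩, ⟨j, hj⟩⟩
      refine ⟨?_, ⟨i, hi⟩⟩
      obtain ⟨m, hm⟩ := hpar (n - 1)
      refine ⟨m - 1 + d (n - 1) * i - j, ?_⟩
      have h3 := tau_rec b σ (n - 1)
      have h4 := hz (n - 1)
      have e : n - 1 + 1 = n := by ring
      rw [e] at h3 h4
      have h5 : z (n - 1 - 1) = d (n - 1) * z (n - 1) - z n := by linarith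
      rw [h5, hi, hj]
      push_cast
      linarith
  exact (key n).2

/-- comparison of the form values with opposite signs with the corner values -/
theorem U_ge (h : Chain d A B) (b : Bds d A B s x) {σ : ℝ} (hσ : 0 ≤ σ) (hσ1 : σ ≤ 1) (n : ℤ)
    {c : ℝ} (h1 : c ≤ Vp A B s σ n) (h2 : c ≤ Vm A B s σ n) :
    c ≤ A n * (1 / 2 - |tau s σ (n - 1)|) ^ 2 +
      B n * ((1 / 2 - |tau s σ (n - 1)|) * (1 / 2 - |tau s σ n|)) +
      A (n - 1) * (1 / 2 - |tau s σ n|) ^ 2 := by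
  rw [tau_abs b hσ, tau_abs b hσ]
  have ht1 : tau s σ (n - 1) = - sg n * (σ * s (n - 1)) := by
    unfold tau; rw [sg_pred]
  have ht2 : tau s σ n = sg n * (σ * s n) := rfl
  have hsq := sg_sq n
  have hx := b.hx
  have hx1 := b.hx1
  -- sum of the corner values
  have hsum : Vp A B s σ n + Vm A B s σ n =
      2 * B n * (1 / 4 - σ ^ 2 * (s (n - 1) * s n)) - A n * (1 / 2 + 2 * σ ^ 2 * s (n - 1) ^ 2) -
        A (n - 1) * (1 / 2 + 2 * σ ^ 2 * s n ^ 2) := by
    unfold Vp Vm q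
    rw [ht1, ht2]
    have e1 : (sg n * (σ * s n)) ^ 2 = σ ^ 2 * s n ^ 2 := by
      calc (sg n * (σ * s n)) ^ 2 = (sg n * sg n) * (σ ^ 2 * s n ^ 2) := by ring
        _ = _ := by rw [hsq, one_mul]
    have e2 : (- sg n * (σ * s (n - 1))) ^ 2 = σ ^ 2 * s (n - 1) ^ 2 := by
      calc (- sg n * (σ * s (n - 1))) ^ 2 = (sg n * sg n) * (σ ^ 2 * s (n - 1) ^ 2) := by ring
        _ = _ := by rw [hsq, one_mul]
    have e3 : (- sg n * (σ * s (n - 1))) * (sg n * (σ * s n)) = - σ ^ 2 * (s (n - 1) * s n) := by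
      calc (- sg n * (σ * s (n - 1))) * (sg n * (σ * s n)) =
          (sg n * sg n) * (- σ ^ 2 * (s (n - 1) * s n)) := by ring
        _ = _ := by rw [hsq, one_mul]
    generalize hP : - sg n * (σ * s (n - 1)) = P at *
    generalize hQ : sg n * (σ * s n) = Q at *
    linear_combination (-2 * A n) * e2 + (-2 * A (n - 1)) * e1 + 2 * B n * e3
  have hrel := h.rel n
  have hrel' := h.rel (n - 1)
  have e : n - 1 + 1 = n := by ring
  rw [e] at hrel'
  have hB1 := b.Blo n
  have hB2 := b.Bhi n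
  have hB3 := b.Blo (n + 1)
  have hB4 := b.Blo (n - 1)
  have hs1 := b.slo (n + 1)
  have hs2 := b.slo (n - 1)
  have hs3 := b.slo n
  have hs4 := b.slo (n - 1 - 1)
  have hxx : x ^ 2 ≤ x / 24 := by nlinarith
  have hlow : 11 / 15 * x ≤ 4 / 5 * x * (1 - 2 * x) := by nlinarith
  have k1 : 0 ≤ A n - B n * s n := by
    have hd : 0 < (d n : ℝ) := by
      have := b.dlo n
      by_contra hcon
      push Not at hcon
      nlinarith
    have hseq := b.seq n
    have : 0 ≤ d n * (A n - B n * s n) := by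
      have e1 : d n * (A n - B n * s n) = (B n + B (n + 1)) / 2 - B n * (1 - s (n + 1) - s (n - 1)) := by
        have : (d n : ℝ) * s n = 1 - s (n + 1) - s (n - 1) := by linarith
        calc d n * (A n - B n * s n) = d n * A n - B n * (d n * s n) := by ring
          _ = _ := by rw [this]; linarith
      rw [e1]
      have q1 : s (n + 1) + s (n - 1) ≤ B n * (s (n + 1) + s (n - 1)) :=
        le_mul_of_one_le_left (by linarith) hB1
      linarith
    exact nonneg_of_mul_nonneg_right this hd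
  have k2 : 0 ≤ A (n - 1) - B n * s (n - 1) := by
    have hd : 0 < (d (n - 1) : ℝ) := by
      have := b.dlo (n - 1)
      by_contra hcon
      push Not at hcon
      nlinarith
    have hseq := b.seq (n - 1)
    rw [e] at hseq
    have : 0 ≤ d (n - 1) * (A (n - 1) - B n * s (n - 1)) := by
      have e1 : d (n - 1) * (A (n - 1) - B n * s (n - 1)) =
          (B (n - 1) + B n) / 2 - B n * (1 - s n - s (n - 1 - 1)) := by
        have : (d (n - 1) : ℝ) * s (n - 1) = 1 - s n - s (n - 1 - 1) := by linarith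
        calc d (n - 1) * (A (n - 1) - B n * s (n - 1)) =
            d (n - 1) * A (n - 1) - B n * (d (n - 1) * s (n - 1)) := by ring
          _ = _ := by rw [this]; linarith
      rw [e1]
      have q1 : s n + s (n - 1 - 1) ≤ B n * (s n + s (n - 1 - 1)) :=
        le_mul_of_one_le_left (by linarith) hB1
      linarith
    exact nonneg_of_mul_nonneg_right this hd
  have hsp := b.spos n
  have hsp' := b.spos (n - 1)
  have hsx := b.sx n
  have hsx' := b.sx (n - 1)
  have k1' : 0 ≤ A n - σ * (B n * s n) := by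
    have h0 : 0 ≤ B n * s n := by positivity
    have := mul_le_of_le_one_left h0 hσ1
    linarith
  have k2' : 0 ≤ A (n - 1) - σ * (B n * s (n - 1)) := by
    have h0 : 0 ≤ B n * s (n - 1) := by positivity
    have := mul_le_of_le_one_left h0 hσ1
    linarith
  have l1 : 0 ≤ 1 / 2 - σ * s (n - 1) := by
    have := mul_le_of_le_one_left hsp'.le hσ1
    linarith
  have l2 : 0 ≤ 1 / 2 - σ * s n := by
    have := mul_le_of_le_one_left hsp.le hσ1
    linarith
  have m1 := mul_nonneg l1 k1'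
  have m2 := mul_nonneg l2 k2'
  have m3 : 0 ≤ 2 * σ ^ 2 * (A n * s (n - 1) ^ 2 + A (n - 1) * s n ^ 2) := by
    have := h.posA n
    have := h.posA (n - 1)
    positivity
  linarith

end Pool.Agent.H93.BSD
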