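import Pool.Agent.H93.BSD.Pts
import Pool.Agent.H93.BSD.Cell

/-!
# Classification of the points with large minimum
-/

namespace Pool.Agent.H93.BSD

variable {d : ℤ → ℤ} {A B s : ℤ → ℝ} {x : ℝ}

/-- displacement of `z n` from `1/2` modulo `1` -/
noncomputable def dt (z : ℤ → ℝ) (n : ℤ) : ℝ := Int.fract (z n) - 1 / 2

theorem cell_at (h : Chain d A B) (b : Bds d A B s x) {z : ℤ → ℝ} (hz : IsSol d z)
    (hmu : 1 / 4 - 16 / 25 * x ≤ mu A B (z (-1), z 0)) (n : ℤ) :
    |dt z n| ≤ 29 / 20 * x ∧ |dt z (n - 1) + dt z n| ≤ 57 / 100 * x := by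
  have hx := b.hx
  have hx1 := b.hx1
  set u := Int.fract (z (n - 1)) with hu
  set v := Int.fract (z n) with hv
  have hu0 : 0 ≤ u := Int.fract_nonneg _
  have hu1 : u ≤ 1 := (Int.fract_lt_one _).le
  have hv0 : 0 ≤ v := Int.fract_nonneg _
  have hv1 : v ≤ 1 := (Int.fract_lt_one _).le
  have eu : u = z (n - 1) + ((-⌊z (n - 1)⌋ : ℤ) : ℝ) := by
    rw [hu, Int.fract]; push_cast; ring
  have ev : v = z n + ((-⌊z n⌋ : ℤ) : ℝ) := by
    rw [hv, Int.fract]; push_cast; ring
  have eu' : u - 1 = z (n - 1) + ((-⌊z (n - 1)⌋ - 1 : ℤ) : ℝ) := by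
    rw [hu, Int.fract]; push_cast; ring
  have ev' : v - 1 = z n + ((-⌊z n⌋ - 1 : ℤ) : ℝ) := by
    rw [hv, Int.fract]; push_cast; ring
  have Ap := h.posA n
  have Ap' := h.posA (n - 1)
  have Bp := h.posB n
  have Ah := b.Ahi n
  have Ah' := b.Ahi (n - 1)
  have g1 := hmu.trans (h.mu_le_at hz n (-⌊z (n - 1)⌋) (-⌊z n⌋))
  have g2 := hmu.trans (h.mu_le_at hz n (-⌊z (n - 1)⌋ - 1) (-⌊z n⌋ - 1))
  have g3 := hmu.trans (h.mu_le_at hz n (-⌊z (n - 1)⌋) (-⌊z n⌋ - 1))
  have g4 := hmu.trans (h.mu_le_at hz n (-⌊z (n - 1)⌋ - 1) (-⌊z n⌋))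
  rw [← eu, ← ev] at g1
  rw [← eu', ← ev'] at g2
  rw [← eu, ← ev'] at g3
  rw [← eu', ← ev] at g4
  have k1 := cell_pos hx hx1 Ap Ah Ap' Ah' hu0 hu1 hv0 hv1 g1 Bp
  have g2' : 1 / 4 - 16 / 25 * x ≤
      |A n * (1 - u) ^ 2 - B n * ((1 - u) * (1 - v)) + A (n - 1) * (1 - v) ^ 2| := by
    refine g2.trans (le_of_eq ?_)
    unfold q
    congr 1
    ring
  have k2 := cell_pos hx hx1 Ap Ah Ap' Ah' (by linarith) (by linarith) (by linarith)
    (by linarith) g2' Bp
  have k3 : 1 / 4 - 16 / 25 * x ≤ A n * u ^ 2 + B n * (u * (1 - v)) + A (n - 1) * (1 - v) ^ 2 := by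
    refine g3.trans (le_of_eq ?_)
    have e : q A B n u (v - 1) = A n * u ^ 2 + B n * (u * (1 - v)) + A (n - 1) * (1 - v) ^ 2 := by
      unfold q; ring
    rw [e, abs_of_nonneg]
    have : 0 ≤ u * (1 - v) := mul_nonneg hu0 (by linarith)
    positivity
  have k4 : 1 / 4 - 16 / 25 * x ≤ A n * (1 - u) ^ 2 + B n * ((1 - u) * v) + A (n - 1) * v ^ 2 := by
    refine g4.trans (le_of_eq ?_)
    have e : q A B n (u - 1) v = A n * (1 - u) ^ 2 + B n * ((1 - u) * v) + A (n - 1) * v ^ 2 := by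
      unfold q; ring
    rw [e, abs_of_nonneg]
    have : 0 ≤ (1 - u) * v := mul_nonneg (by linarith) hv0
    positivity
  have r1 := cell_kappa hx hx1 Ap Ah Ap' Ah' (b.Blo n) (b.Bhi n) k1 k2 k3 k4
  have r2 := cell_sum hx hx1 (b.Alo n) (b.Alo (n - 1)) (b.Blo n) (b.Bhi n) hu0 hu1 hv0 hv1 k1 k2
  refine ⟨r1.2, ?_⟩
  have e : dt z (n - 1) + dt z n = u + v - 1 := by unfold dt; ring
  rw [e]
  exact r2

theorem digit_bound {δ δ' t t' w w' x : ℝ} (hx : 0 < x) (hx1 : x ≤ 1 / 24)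
    (h1 : 1 ≤ δ * x) (h2 : δ * x ≤ 5 / 4) (h1' : 1 ≤ δ' * x) (h2' : δ' * x ≤ 5 / 4)
    (ht : |t| ≤ 29 / 20 * x) (ht' : |t'| ≤ 29 / 20 * x) (hs : |t + t'| ≤ 57 / 100 * x)
    (hw : |w| ≤ 57 / 100 * x) (hw' : |w'| ≤ 57 / 100 * x) :
    |δ * t + δ' * t' - w - w'| < 1 := by
  have hδ : 0 < δ := by
    by_contra hcon
    push Not at hcon
    nlinarith
  have hδ' : 0 < δ' := by
    by_contra hcon
    push Not at hcon
    nlinarith
  have main : |δ * t + δ' * t'| ≤ 373 / 400 := by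
    rcases le_total δ δ' with hle | hle
    · have e : δ * t + δ' * t' = δ * (t + t') + (δ' - δ) * t' := by ring
      rw [e]
      calc _ ≤ |δ * (t + t')| + |(δ' - δ) * t'| := abs_add_le _ _
        _ = δ * |t + t'| + (δ' - δ) * |t'| := by
            rw [abs_mul, abs_mul, abs_of_pos hδ, abs_of_nonneg (sub_nonneg.2 hle)]
        _ ≤ δ * (57 / 100 * x) + (δ' - δ) * (29 / 20 * x) :=
            add_le_add (mul_le_mul_of_nonneg_left hs hδ.le)
              (mul_le_mul_of_nonneg_left ht' (by linarith))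
        _ ≤ _ := by linarith
    · have e : δ * t + δ' * t' = δ' * (t + t') + (δ - δ') * t := by ring
      rw [e]
      calc _ ≤ |δ' * (t + t')| + |(δ - δ') * t| := abs_add_le _ _
        _ = δ' * |t + t'| + (δ - δ') * |t| := by
            rw [abs_mul, abs_mul, abs_of_pos hδ', abs_of_nonneg (sub_nonneg.2 hle)]
        _ ≤ δ' * (57 / 100 * x) + (δ - δ') * (29 / 20 * x) :=
            add_le_add (mul_le_mul_of_nonneg_left hs hδ'.le)
              (mul_le_mul_of_nonneg_left ht (by linarith))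
        _ ≤ _ := by linarith
  calc |δ * t + δ' * t' - w - w'| ≤ |δ * t + δ' * t'| + |w| + |w'| := by
        have a1 := abs_sub (δ * t + δ' * t' - w) w'
        have a2 := abs_sub (δ * t + δ' * t') w
        linarith
    _ < 1 := by linarith

theorem classify (h : Chain d A B) (b : Bds d A B s x) (hev : ∀ n, Even (d n + d (n - 1)))
    {z : ℤ → ℝ} (hz : IsSol d z) (hmu : 1 / 4 - 16 / 25 * x ≤ mu A B (z (-1), z 0)) :
    ∃ σ : ℝ, (∀ n, dt z n = tau s σ n) ∧ (∀ n, ∃ m : ℤ, (d n : ℝ) / 2 + sg n * σ = m) ∧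
      |σ| < 2 := by
  have hx := b.hx
  have hx1 := b.hx1
  have hc := cell_at h b hz hmu
  set k : ℤ → ℝ := fun n => d n * dt z n - dt z (n + 1) - dt z (n - 1) with hk
  have hK : ∀ n, ∃ K : ℤ, k n = K + 1 - d n / 2 := by
    intro n
    refine ⟨⌊z (n + 1)⌋ + ⌊z (n - 1)⌋ - d n * ⌊z n⌋, ?_⟩
    have h1 := hz n
    simp only [hk, dt, Int.fract]
    push_cast
    rw [h1]
    ring
  have hkk : ∀ n, k n = - k (n - 1) := by
    intro n
    obtain ⟨K, hKn⟩ := hK n
    obtain ⟨L, hLn⟩ := hK (n - 1)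
    obtain ⟨m, hm⟩ := hev n
    have hint : k n + k (n - 1) = ((K + L + 2 - m : ℤ) : ℝ) := by
      have hm' : (d n : ℝ) + d (n - 1) = m + m := by exact_mod_cast hm
      rw [hKn, hLn]
      push_cast
      linarith
    have hlt : |k n + k (n - 1)| < 1 := by
      have e : k n + k (n - 1) = d n * dt z n + d (n - 1) * dt z (n - 1) -
          (dt z n + dt z (n + 1)) - (dt z (n - 1 - 1) + dt z (n - 1)) := by
        have e0 : n - 1 + 1 = n := by ring
        simp only [hk, e0]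
        ring
      rw [e]
      have e1 : n + 1 - 1 = n := by ring
      have c1 := hc (n + 1)
      rw [e1] at c1
      have c2 := (hc n).2
      rw [add_comm] at c2
      exact digit_bound hx hx1 (b.dlo n) (b.dhi n) (b.dlo (n - 1)) (b.dhi (n - 1)) (hc n).1
        (hc (n - 1)).1 c2 c1.2 (hc (n - 1)).2
    rw [hint] at hlt
    have h0 : (K + L + 2 - m : ℤ) = 0 := by
      have : |(K + L + 2 - m : ℤ)| < 1 := by exact_mod_cast hlt
      exact Int.abs_lt_one_iff.1 this
    rw [h0] at hint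
    push_cast at hint
    linarith
  have hks : ∀ n, k n = sg n * k 0 := by
    refine two_sided 0 ?_ ?_ ?_
    · simp [sg]
    · intro n hn
      have h1 := hkk (n + 1)
      have e : n + 1 - 1 = n := by ring
      rw [e, hn] at h1
      rw [h1, sg_succ]
      ring
    · intro n hn
      have h1 := hkk n
      rw [sg_pred]
      linarith
  have key : ∀ n, dt z n = tau s (k 0) n := by
    intro n
    have hb := bounded_zero (d := d) (e := fun n => dt z n - tau s (k 0) n) (fun n => ?_)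
      (29 / 20 * x + |k 0| * x) ?_ ?_ n
    · change dt z n - tau s (k 0) n = 0 at hb
      linarith
    · have h1 := b.dlo n
      have : (3 : ℝ) ≤ d n := by
        by_contra hcon
        push Not at hcon
        nlinarith
      exact_mod_cast this
    · intro n
      have h1 := tau_rec b (k 0) n
      have h2 : d n * dt z n - dt z (n + 1) - dt z (n - 1) = sg n * k 0 := hks n
      change (d n : ℝ) * (dt z n - tau s (k 0) n) = (dt z (n + 1) - tau s (k 0) (n + 1)) +
        (dt z (n - 1) - tau s (k 0) (n - 1))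
      linarith
    · intro n
      have h1 := (hc n).1
      have h2 : |tau s (k 0) n| ≤ |k 0| * x := by
        unfold tau
        rw [abs_mul, sg_abs, one_mul, abs_mul, abs_of_pos (b.spos n)]
        exact mul_le_mul_of_nonneg_left (b.sx n) (abs_nonneg _)
      calc |dt z n - tau s (k 0) n| ≤ |dt z n| + |tau s (k 0) n| := abs_sub _ _
        _ ≤ _ := add_le_add h1 h2
  refine ⟨k 0, key, ?_, ?_⟩
  · intro n
    obtain ⟨K, hKn⟩ := hK n
    refine ⟨K + 1, ?_⟩
    rw [← hks n, hKn]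
    push_cast
    ring
  · have h1 := (hc 0).1
    rw [key 0] at h1
    unfold tau at h1
    rw [abs_mul, sg_abs, one_mul, abs_mul, abs_of_pos (b.spos 0)] at h1
    have h2 := b.slo 0
    have h3 : 11 / 15 * x ≤ s 0 := by nlinarith
    by_contra hcon
    push Not at hcon
    have h4 : 2 * s 0 ≤ |k 0| * s 0 := mul_le_mul_of_nonneg_right hcon (b.spos 0).le
    linarith

end Pool.Agent.H93.BSD
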