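import Pool.Agent.H93.BSD.Up

/-!
# The values at the special points and the top of the spectrum
-/

namespace Pool.Agent.H93.BSD

variable {d : ℤ → ℤ} {A B s : ℤ → ℝ} {x : ℝ}

theorem mu_trans (p : ℝ × ℝ) (i j : ℤ) : mu A B (p.1 + i, p.2 + j) = mu A B p := by
  unfold mu
  refine (Equiv.iInf_congr ((Equiv.addRight ((i, j) : ℤ × ℤ))) fun z => ?_)
  simp only [Equiv.coe_addRight, Prod.fst_add, Prod.snd_add, Int.cast_add]
  congr 2 <;> ring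

theorem mu_neg (p : ℝ × ℝ) : mu A B (-p.1, -p.2) = mu A B p := by
  unfold mu
  refine (Equiv.iInf_congr (Equiv.neg (ℤ × ℤ)) fun z => ?_)
  simp only [Equiv.neg_apply, Prod.fst_neg, Prod.snd_neg, Int.cast_neg]
  rw [← q_neg]
  congr 2 <;> ring

theorem mu_nonneg (p : ℝ × ℝ) : 0 ≤ mu A B p :=
  le_mu p 0 fun _ _ => abs_nonneg _

theorem pt_neg (σ : ℝ) : mu A B (pt s (-σ)) = mu A B (pt s σ) := by
  have h1 := mu_neg (A := A) (B := B) (pt s σ)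
  have h2 := mu_trans (A := A) (B := B) (-(pt s σ).1, -(pt s σ).2) 1 1
  rw [← h1, ← h2]
  congr 1
  unfold pt tau
  ext
  · simp only [Int.cast_one]; ring
  · simp only [Int.cast_one]; ring

/-- a solution through a special point -/
theorem pt_sol (d : ℤ → ℤ) (s : ℤ → ℝ) (σ : ℝ) :
    ∃ z : ℤ → ℝ, IsSol d z ∧ z (-1) = 1 / 2 + tau s σ (-1) ∧ z 0 = 1 / 2 + tau s σ 0 := by
  obtain ⟨z, hz, h1, h2⟩ := exists_sol (R := ℝ) d 0 (1 / 2 + tau s σ (-1)) (1 / 2 + tau s σ 0)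
  rw [zero_sub] at h1
  exact ⟨z, hz, h1, h2⟩

theorem Ahi' (b : Bds d A B s x) (n : ℤ) : A n ≤ 1 / 20 := by
  have h1 := b.Ahi n
  have h2 := b.hx1
  linarith

/-- lower bound at a special point -/
theorem le_mu_pt (h : Chain d A B) (b : Bds d A B s x) {σ : ℝ} (hσ : 0 ≤ σ) (hσ1 : σ ≤ 1)
    (hpar : ∀ n, ∃ m : ℤ, (d n : ℝ) / 2 + sg n * σ = m) {c : ℝ} (hc : c ≤ 1 / 4)
    (h1 : ∀ n, c ≤ Vp A B s σ n) (h2 : ∀ n, c ≤ Vm A B s σ n) : c ≤ mu A B (pt s σ) := by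
  obtain ⟨z, hz, e1, e2⟩ := pt_sol d s σ
  have hp : pt s σ = (z (-1), z 0) := by
    unfold pt
    rw [e1, e2]
  rw [hp]
  have hx := b.hx
  have hx1 := b.hx1
  refine le_mu_sol hz c fun w hw hwz => ?_
  refine lower h hw (tau s σ) (fun n => ?_) (fun n => ?_) c hc (Ahi' b) b.Blo h1 h2
    (fun n => U_ge h b hσ hσ1 n (h1 n) (h2 n))
  · rw [tau_abs b hσ]
    have g1 := b.sx n
    have g2 := b.spos n
    have : σ * s n ≤ s n := mul_le_of_le_one_left g2.le hσ1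
    linarith
  · obtain ⟨i, hi⟩ := hwz n
    obtain ⟨j, hj⟩ := pt_congr b hpar hz 0 ⟨0, by rw [zero_sub, e1]; simp⟩
      ⟨0, by rw [e2]; simp⟩ n
    exact ⟨j + i, by rw [hi, hj]; push_cast; ring⟩

/-- upper bounds at a special point -/
theorem mu_pt_le (h : Chain d A B) (b : Bds d A B s x) {σ : ℝ}
    (hpar : ∀ n, ∃ m : ℤ, (d n : ℝ) / 2 + sg n * σ = m) (n : ℤ) :
    mu A B (pt s σ) ≤ |Vp A B s σ n| ∧ mu A B (pt s σ) ≤ |Vm A B s σ n| := by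
  obtain ⟨z, hz, e1, e2⟩ := pt_sol d s σ
  have hp : pt s σ = (z (-1), z 0) := by
    unfold pt
    rw [e1, e2]
  rw [hp]
  obtain ⟨i, hi⟩ := pt_congr b hpar hz 0 ⟨0, by rw [zero_sub, e1]; simp⟩
    ⟨0, by rw [e2]; simp⟩ (n - 1)
  obtain ⟨j, hj⟩ := pt_congr b hpar hz 0 ⟨0, by rw [zero_sub, e1]; simp⟩
    ⟨0, by rw [e2]; simp⟩ n
  constructor
  · refine (h.mu_le_at hz n (-i) (-j)).trans (le_of_eq ?_)
    unfold Vp
    rw [abs_neg, hi, hj]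
    congr 2 <;> · push_cast; ring
  · refine (h.mu_le_at hz n (-i - 1) (-j - 1)).trans (le_of_eq ?_)
    unfold Vm
    rw [abs_neg, hi, hj, ← q_neg]
    congr 2 <;> · push_cast; ring

/-- monotonicity of the corner value -/
theorem corner_mono {a a' b u v u0 v0 : ℝ} (ha : 0 ≤ a) (ha' : 0 ≤ a') (ha1 : a ≤ 1 / 20)
    (ha1' : a' ≤ 1 / 20) (hb : 1 ≤ b) (hu0 : 2 / 5 ≤ u0) (hv0 : 2 / 5 ≤ v0) (hu : u0 ≤ u) (hv : v0 ≤ v)
    (hu1 : u ≤ 3 / 5) (hv1 : v ≤ 3 / 5) :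
    b * (u0 * v0) - a * u0 ^ 2 - a' * v0 ^ 2 ≤ b * (u * v) - a * u ^ 2 - a' * v ^ 2 := by
  have e : (b * (u * v) - a * u ^ 2 - a' * v ^ 2) - (b * (u0 * v0) - a * u0 ^ 2 - a' * v0 ^ 2) =
      (u - u0) * (b * v - a * (u + u0)) + (v - v0) * (b * u0 - a' * (v + v0)) := by ring
  have h1 : 0 ≤ b * v - a * (u + u0) := by
    have : a * (u + u0) ≤ 1 / 20 * (u + u0) := mul_le_mul_of_nonneg_right ha1 (by linarith)
    have : v ≤ b * v := le_mul_of_one_le_left (by linarith) hb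
    linarith
  have h2 : 0 ≤ b * u0 - a' * (v + v0) := by
    have : a' * (v + v0) ≤ 1 / 20 * (v + v0) := mul_le_mul_of_nonneg_right ha1' (by linarith)
    have : u0 ≤ b * u0 := le_mul_of_one_le_left (by linarith) hb
    linarith
  have h3 := mul_nonneg (sub_nonneg.2 hu) h1
  have h4 := mul_nonneg (sub_nonneg.2 hv) h2
  linarith

/-- lower bound for the corner values -/
theorem V_lower (h : Chain d A B) (b : Bds d A B s x) {σ : ℝ} (hσ : 0 ≤ σ) (hσ1 : σ ≤ 1)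
    {c : ℝ}
    (hc : c ≤ (1 / 2 - σ * (x * (1 - 8 / 5 * x * (1 - 2 * x)))) *
        (1 / 2 + σ * (4 / 5 * x * (1 - 2 * x))) -
      251 / 250 * x * ((1 / 2 - σ * (x * (1 - 8 / 5 * x * (1 - 2 * x)))) ^ 2 +
        (1 / 2 + σ * (4 / 5 * x * (1 - 2 * x))) ^ 2)) (n : ℤ) :
    c ≤ Vp A B s σ n ∧ c ≤ Vm A B s σ n := by
  have hx := b.hx
  have hx1 := b.hx1
  have main : ∀ a a' u v : ℝ, 0 ≤ a → 0 ≤ a' → a ≤ 251 / 250 * x → a' ≤ 251 / 250 * x →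
      1 / 2 - σ * (x * (1 - 8 / 5 * x * (1 - 2 * x))) ≤ u → 1 / 2 + σ * (4 / 5 * x * (1 - 2 * x)) ≤ v →
      u ≤ 3 / 5 → v ≤ 3 / 5 → c ≤ B n * (u * v) - a * u ^ 2 - a' * v ^ 2 := by
    intro a a' u v ha ha' ha1 ha1' hu hv hu1 hv1
    set u0 := 1 / 2 - σ * (x * (1 - 8 / 5 * x * (1 - 2 * x))) with hu0
    set v0 := 1 / 2 + σ * (4 / 5 * x * (1 - 2 * x)) with hv0
    have k1 : 2 / 5 ≤ u0 := by
      have h1 : 0 ≤ 8 / 5 * x * (1 - 2 * x) := mul_nonneg (by linarith) (by linarith)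
      have h2 : x * (1 - 8 / 5 * x * (1 - 2 * x)) ≤ x := by nlinarith
      have h3 : σ * (x * (1 - 8 / 5 * x * (1 - 2 * x))) ≤ 1 * (1 / 24) := by
        have h4 : 0 ≤ x * (1 - 8 / 5 * x * (1 - 2 * x)) := by
          apply mul_nonneg hx.le
          nlinarith
        exact mul_le_mul hσ1 (h2.trans hx1) h4 (by norm_num)
      rw [hu0]
      linarith
    have k2 : 2 / 5 ≤ v0 := by
      have h1 : 0 ≤ σ * (4 / 5 * x * (1 - 2 * x)) :=
        mul_nonneg hσ (mul_nonneg (by linarith) (by linarith))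
      rw [hv0]
      linarith
    have k3 := corner_mono (b := B n) ha ha' (by linarith) (by linarith) (b.Blo n) k1 k2 hu hv hu1 hv1
    refine le_trans ?_ k3
    refine hc.trans ?_
    have g1 : u0 * v0 ≤ B n * (u0 * v0) :=
      le_mul_of_one_le_left (mul_nonneg (by linarith) (by linarith)) (b.Blo n)
    have g2 : a * u0 ^ 2 ≤ 251 / 250 * x * u0 ^ 2 := mul_le_mul_of_nonneg_right ha1 (sq_nonneg _)
    have g3 : a' * v0 ^ 2 ≤ 251 / 250 * x * v0 ^ 2 := mul_le_mul_of_nonneg_right ha1' (sq_nonneg _)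
    linarith
  have hs1 := b.shi n
  have hs2 := b.slo n
  have hs3 := b.shi (n - 1)
  have hs4 := b.slo (n - 1)
  have sx1 := b.sx n
  have sx2 := b.sx (n - 1)
  have sp1 := b.spos n
  have sp2 := b.spos (n - 1)
  have t1 := mul_le_mul_of_nonneg_left hs1 hσ
  have t2 := mul_le_mul_of_nonneg_left hs2 hσ
  have t3 := mul_le_mul_of_nonneg_left hs3 hσ
  have t4 := mul_le_mul_of_nonneg_left hs4 hσ
  have t5 : σ * s n ≤ s n := mul_le_of_le_one_left sp1.le hσ1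
  have t6 : σ * s (n - 1) ≤ s (n - 1) := mul_le_of_le_one_left sp2.le hσ1
  have t7 : 0 ≤ σ * s n := mul_nonneg hσ sp1.le
  have t8 : 0 ≤ σ * s (n - 1) := mul_nonneg hσ sp2.le
  have m1 := main (A n) (A (n - 1)) (1 / 2 - σ * s (n - 1)) (1 / 2 + σ * s n) (h.posA n).le
    (h.posA _).le (b.Ahi n) (b.Ahi _) (by linarith) (by linarith) (by linarith) (by linarith)
  have m2 := main (A (n - 1)) (A n) (1 / 2 - σ * s n) (1 / 2 + σ * s (n - 1)) (h.posA _).le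
    (h.posA _).le (b.Ahi _) (b.Ahi _) (by linarith) (by linarith) (by linarith) (by linarith)
  have ep : tau s σ (n - 1) = - sg n * (σ * s (n - 1)) := by unfold tau; rw [sg_pred]
  have eq : tau s σ n = sg n * (σ * s n) := rfl
  rcases sg_or n with hsg | hsg
  · constructor
    · refine m1.trans (le_of_eq ?_)
      unfold Vp q
      rw [ep, eq, hsg]
      ring
    · refine m2.trans (le_of_eq ?_)
      unfold Vm q
      rw [ep, eq, hsg]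
      ring
  · constructor
    · refine m2.trans (le_of_eq ?_)
      unfold Vp q
      rw [ep, eq, hsg]
      ring
    · refine m1.trans (le_of_eq ?_)
      unfold Vm q
      rw [ep, eq, hsg]
      ring

/-- numerical lower bound, `σ = 1` -/
theorem num_one (hx : 0 < x) (hx1 : x ≤ 1 / 24) :
    1 / 4 - 16 / 25 * x ≤ (1 / 2 - 1 * (x * (1 - 8 / 5 * x * (1 - 2 * x)))) *
        (1 / 2 + 1 * (4 / 5 * x * (1 - 2 * x))) -
      251 / 250 * x * ((1 / 2 - 1 * (x * (1 - 8 / 5 * x * (1 - 2 * x)))) ^ 2 +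
        (1 / 2 + 1 * (4 / 5 * x * (1 - 2 * x))) ^ 2) := by
  have hx2 : 0 ≤ x ^ 2 := sq_nonneg x
  have hx3 : 0 ≤ x ^ 3 := by positivity
  have hx4 : 0 ≤ x ^ 4 := by positivity
  have hx5 : 0 ≤ x ^ 5 := by positivity
  have hx6 : 0 ≤ x ^ 6 := by positivity
  have a2 : x ^ 2 ≤ x / 24 := by nlinarith
  have a3 : x ^ 3 ≤ x ^ 2 / 24 := by nlinarith
  have a4 : x ^ 4 ≤ x ^ 3 / 24 := by nlinarith
  have a5 : x ^ 5 ≤ x ^ 4 / 24 := by nlinarith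
  have a6 : x ^ 6 ≤ x ^ 5 / 24 := by nlinarith
  have a7 : x ^ 7 ≤ x ^ 6 / 24 := by nlinarith
  nlinarith

theorem num_half (hx : 0 < x) (hx1 : x ≤ 1 / 24) :
    1 / 4 - 57 / 100 * x ≤ (1 / 2 - 1 / 2 * (x * (1 - 8 / 5 * x * (1 - 2 * x)))) *
        (1 / 2 + 1 / 2 * (4 / 5 * x * (1 - 2 * x))) -
      251 / 250 * x * ((1 / 2 - 1 / 2 * (x * (1 - 8 / 5 * x * (1 - 2 * x)))) ^ 2 +
        (1 / 2 + 1 / 2 * (4 / 5 * x * (1 - 2 * x))) ^ 2) := by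
  have hx2 : 0 ≤ x ^ 2 := sq_nonneg x
  have hx3 : 0 ≤ x ^ 3 := by positivity
  have hx4 : 0 ≤ x ^ 4 := by positivity
  have hx5 : 0 ≤ x ^ 5 := by positivity
  have hx6 : 0 ≤ x ^ 6 := by positivity
  have a2 : x ^ 2 ≤ x / 24 := by nlinarith
  have a3 : x ^ 3 ≤ x ^ 2 / 24 := by nlinarith
  have a4 : x ^ 4 ≤ x ^ 3 / 24 := by nlinarith
  have a5 : x ^ 5 ≤ x ^ 4 / 24 := by nlinarith
  have a6 : x ^ 6 ≤ x ^ 5 / 24 := by nlinarith
  have a7 : x ^ 7 ≤ x ^ 6 / 24 := by nlinarith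
  nlinarith

/-- numerical upper bound, `σ = 3/2` -/
theorem num_three (hx : 0 < x) (hx1 : x ≤ 1 / 24) :
    (1 + 21 / 10 * x ^ 2 + 251 / 125 * x) * (1 / 2 - 3 / 2 * (4 / 5 * x * (1 - 2 * x))) ^ 2 <
      1 / 4 - 29 / 50 * x := by
  have hx2 : 0 ≤ x ^ 2 := sq_nonneg x
  have hx3 : 0 ≤ x ^ 3 := by positivity
  have hx4 : 0 ≤ x ^ 4 := by positivity
  have hx5 : 0 ≤ x ^ 5 := by positivity
  have a2 : x ^ 2 ≤ x / 24 := by nlinarith
  have a3 : x ^ 3 ≤ x ^ 2 / 24 := by nlinarith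
  have a4 : x ^ 4 ≤ x ^ 3 / 24 := by nlinarith
  have a5 : x ^ 5 ≤ x ^ 4 / 24 := by nlinarith
  have a6 : x ^ 6 ≤ x ^ 5 / 24 := by nlinarith
  nlinarith

end Pool.Agent.H93.BSD
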